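import Pool.Agent.Lib.MP_81bbc5_al.Dense

/-! Amalgamation of two limits of a virtually nilpotent group. -/

set_option autoImplicit false

namespace Pool.Agent.MP81bbc5

open Filter

theorem amalg {G H₁ H₂ : Type} [Group G] [Group H₁] [Group H₂] [Group.FG G] [Group.FG H₁]
    [Group.FG H₂] (hG : Group.IsVirtuallyNilpotent G) (h1 : Preceq G H₁) (h2 : Preceq G H₂) :
    ∃ (U : Type) (_ : Group U), Group.FG U ∧ Preceq H₁ U ∧ Preceq H₂ U := by
  have hv1 := vn_up hG h1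
  have hv2 := vn_up hG h2
  obtain ⟨e0, he0, hg0⟩ := exists_good G hG
  obtain ⟨e1, he1, hg1⟩ := exists_good H₁ hv1
  obtain ⟨e2, he2, hg2⟩ := exists_good H₂ hv2
  let e := e0 * e1 * e2
  have he : e ≠ 0 := mul_ne_zero (mul_ne_zero he0 he1) he2
  obtain ⟨hi0, hn0, ht0⟩ := hg0 e he ⟨e1 * e2, by simp only [e]; ring⟩
  obtain ⟨hi1, hn1, ht1⟩ := hg1 e he ⟨e0 * e2, by simp only [e]; ring⟩
  obtain ⟨hi2, hn2, ht2⟩ := hg2 e he ⟨e0 * e1, by simp only [e]; ring⟩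
  have N0 : (vp (⊤ : Subgroup G) e).Normal := vp_normal _ _
  have N1 : (vp (⊤ : Subgroup H₁) e).Normal := vp_normal _ _
  have N2 : (vp (⊤ : Subgroup H₂) e).Normal := vp_normal _ _
  have gens : ∀ (H : Type) [Group H] [Group.FG H], (vp (⊤ : Subgroup H) e).index ≠ 0 →
      ∃ (l : ℕ) (n : Fin l → H), Subgroup.closure (Set.range n) = vp (⊤ : Subgroup H) e := by
    intro H _ _ hi
    have : (vp (⊤ : Subgroup H) e).FiniteIndex := ⟨hi⟩
    have hfg : Group.FG (vp (⊤ : Subgroup H) e) := inferInstance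
    rw [Group.fg_iff_subgroup_fg] at hfg
    obtain ⟨S, hS⟩ := hfg
    refine ⟨S.card, fun i => (S.equivFin.symm i : H), ?_⟩
    rw [← hS]
    congr 1
    ext x
    constructor
    · rintro ⟨i, rfl⟩; exact (S.equivFin.symm i).2
    · intro hx; exact ⟨S.equivFin ⟨x, hx⟩, by simp⟩
  obtain ⟨l1, n1, hn1c⟩ := gens H₁ hi1
  obtain ⟨l2, n2, hn2c⟩ := gens H₂ hi2
  obtain ⟨k1, t1, s1, hgt1, hgs1, hl1⟩ := h1
  obtain ⟨k2, t2, s2, hgt2, hgs2, hl2⟩ := h2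
  obtain ⟨s, hs, hR1⟩ := RR_transfer (β := Fin k2 ⊕ (Fin l1 ⊕ Fin l2)) hG e hi0 hgt1 hgs1 hl1
  obtain ⟨s', hs', hR2⟩ := RR_transfer (β := Fin k1 ⊕ (Fin l1 ⊕ Fin l2)) hG e hi0 hgt2 hgs2 hl2
  have p1 := preceq_generic (β := Fin k2 ⊕ (Fin l1 ⊕ Fin l2)) (vp (⊤ : Subgroup H₁) e) ht1 t1 hgt1
    (Sum.elim (fun _ => 1) (Sum.elim n1 (fun _ => 1))) (by
      apply le_antisymm
      · rw [Subgroup.closure_le]
        rintro _ ⟨a | b | c, rfl⟩
        · exact one_mem _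
        · rw [SetLike.mem_coe, ← hn1c]; exact Subgroup.subset_closure ⟨b, rfl⟩
        · exact one_mem _
      · rw [← hn1c, Subgroup.closure_le]
        rintro _ ⟨b, rfl⟩
        exact Subgroup.subset_closure ⟨Sum.inr (Sum.inl b), rfl⟩)
  have p2 := preceq_generic (β := Fin k1 ⊕ (Fin l1 ⊕ Fin l2)) (vp (⊤ : Subgroup H₂) e) ht2 t2 hgt2
    (Sum.elim (fun _ => 1) (Sum.elim (fun _ => 1) n2)) (by
      apply le_antisymm
      · rw [Subgroup.closure_le]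
        rintro _ ⟨a | b | c, rfl⟩
        · exact one_mem _
        · exact one_mem _
        · rw [SetLike.mem_coe, ← hn2c]; exact Subgroup.subset_closure ⟨c, rfl⟩
      · rw [← hn2c, Subgroup.closure_le]
        rintro _ ⟨b, rfl⟩
        exact Subgroup.subset_closure ⟨Sum.inr (Sum.inr b), rfl⟩)
  obtain ⟨iso⟩ := RR_two (γ := Fin l1 ⊕ Fin l2) (vp (⊤ : Subgroup G) e) s hs s' hs'
  refine ⟨FreeGroup (Fin k1 ⊕ (Fin k2 ⊕ (Fin l1 ⊕ Fin l2))) ⧸
    RR (vp (⊤ : Subgroup H₁) e) (FreeGroup.lift (Sum.elim t1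
      (1 : Fin k2 ⊕ (Fin l1 ⊕ Fin l2) → H₁))), inferInstance, inferInstance, p1, ?_⟩
  refine p2.congr_right ?_
  exact (QuotientGroup.quotientMulEquivOfEq hR2).trans
    (iso.trans (QuotientGroup.quotientMulEquivOfEq hR1).symm)

end Pool.Agent.MP81bbc5
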