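import Mathlib

/-! Marked groups and the preorder on finitely generated groups. -/

set_option autoImplicit false

namespace Pool.Agent.MP81bbc5

open Filter

/-- The tuple `t` generates the group `H`. -/
def Gen {ι : Type*} {H : Type*} [Group H] (t : ι → H) : Prop :=
  Subgroup.closure (Set.range t) = ⊤

/-- The marked groups `(G, s n)` converge to the marked group `(H, t)`: for every word `w`
in the free group, for all large `n`, `w (s n) = 1` if and only if `w t = 1`. -/
def MarkedLim {ι G H : Type*} [Group G] [Group H] (s : ℕ → ι → G) (t : ι → H) : Prop :=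
  ∀ w : FreeGroup ι, ∀ᶠ n in atTop, (FreeGroup.lift (s n) w = 1 ↔ FreeGroup.lift t w = 1)

/-- `G ⪯ H`. -/
def Preceq (G H : Type*) [Group G] [Group H] : Prop :=
  ∃ (k : ℕ) (t : Fin k → H) (s : ℕ → Fin k → G),
    Gen t ∧ (∀ n, Gen (s n)) ∧ MarkedLim s t

theorem Gen.lift_surj {ι H : Type*} [Group H] {t : ι → H} (h : Gen t) :
    Function.Surjective (FreeGroup.lift t) :=
  FreeGroup.lift_surjective_iff_closure_range_eq_top.mpr h

theorem gen_of_lift_surj {ι H : Type*} [Group H] {t : ι → H}
    (h : Function.Surjective (FreeGroup.lift t)) : Gen t :=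
  FreeGroup.lift_surjective_iff_closure_range_eq_top.mp h

theorem lift_comp {ι κ H : Type*} [Group H] (t : ι → H) (v : κ → FreeGroup ι) (w : FreeGroup κ) :
    FreeGroup.lift (fun j => FreeGroup.lift t (v j)) w = FreeGroup.lift t (FreeGroup.lift v w) := by
  have : FreeGroup.lift (fun j => FreeGroup.lift t (v j))
      = (FreeGroup.lift t).comp (FreeGroup.lift v) := by
    ext j; simp
  rw [this]; rfl

/-- Change of generating tuple of the limit group. -/
theorem change_marking {ι κ G H : Type*} [Finite ι] [Group G] [Group H]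
    {s : ℕ → ι → G} {t : ι → H} (ht : Gen t) (hs : ∀ n, Gen (s n)) (hlim : MarkedLim s t)
    (t' : κ → H) (ht' : Gen t') :
    ∃ s' : ℕ → κ → G, (∀ n, Gen (s' n)) ∧ MarkedLim s' t' := by
  choose v hv using fun j => ht.lift_surj (t' j)
  choose u hu using fun i => ht'.lift_surj (t i)
  let s0 : ℕ → κ → G := fun n j => FreeGroup.lift (s n) (v j)
  have hs0 : ∀ n w, FreeGroup.lift (s0 n) w = FreeGroup.lift (s n) (FreeGroup.lift v w) :=
    fun n w => lift_comp (s n) v w
  have ht0 : ∀ w, FreeGroup.lift t' w = FreeGroup.lift t (FreeGroup.lift v w) := by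
    intro w
    rw [← lift_comp]
    congr 2
    funext j; exact (hv j).symm
  have hlim0 : MarkedLim s0 t' := by
    intro w
    filter_upwards [hlim (FreeGroup.lift v w)] with n hn
    rw [hs0, ht0]; exact hn
  have hgen : ∀ᶠ n in atTop, Gen (s0 n) := by
    have h1 : ∀ i : ι, ∀ᶠ n in atTop, FreeGroup.lift (s0 n) (u i) = s n i := by
      intro i
      filter_upwards [hlim (FreeGroup.lift v (u i) * (FreeGroup.of i)⁻¹)] with n hn
      have h2 : FreeGroup.lift t (FreeGroup.lift v (u i) * (FreeGroup.of i)⁻¹) = 1 := by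
        rw [map_mul, ← ht0, hu i, map_inv, FreeGroup.lift_apply_of, mul_inv_cancel]
      have h3 := hn.mpr h2
      rw [map_mul, ← hs0, map_inv, FreeGroup.lift_apply_of, mul_inv_eq_one] at h3
      exact h3
    filter_upwards [eventually_all.mpr h1] with n hn
    apply gen_of_lift_surj
    have h4 : Set.range (s n) ⊆ ((FreeGroup.lift (s0 n)).range : Set G) := by
      rintro _ ⟨i, rfl⟩
      exact ⟨u i, hn i⟩
    have h5 : (⊤ : Subgroup G) ≤ (FreeGroup.lift (s0 n)).range := by
      rw [← hs n, Subgroup.closure_le]; exact h4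
    exact MonoidHom.range_eq_top.mp (top_le_iff.mp h5)
  obtain ⟨n0, hn0⟩ := eventually_atTop.mp hgen
  refine ⟨fun n => s0 (n + n0), fun n => hn0 _ (by omega), ?_⟩
  intro w
  exact (tendsto_add_atTop_nat n0).eventually (hlim0 w)

theorem Preceq.exists_marking {κ G H : Type*} [Group G] [Group H] (h : Preceq G H)
    (t' : κ → H) (ht' : Gen t') :
    ∃ s' : ℕ → κ → G, (∀ n, Gen (s' n)) ∧ MarkedLim s' t' := by
  obtain ⟨k, t, s, ht, hs, hlim⟩ := h
  exact change_marking ht hs hlim t' ht'

/-- A marked limit along any finite index type gives `G ⪯ H`. -/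
theorem preceq_of_marked {ι G H : Type*} [Finite ι] [Group G] [Group H]
    {s : ℕ → ι → G} {t : ι → H} (ht : Gen t) (hs : ∀ n, Gen (s n)) (hlim : MarkedLim s t) :
    Preceq G H := by
  obtain ⟨k, ⟨e⟩⟩ := Finite.exists_equiv_fin ι
  have ht' : Gen (t ∘ e.symm) := by
    unfold Gen
    rw [Set.range_comp, e.symm.surjective.range_eq, Set.image_univ]
    exact ht
  obtain ⟨s', hs', hlim'⟩ := change_marking ht hs hlim (t ∘ e.symm) ht'
  exact ⟨k, t ∘ e.symm, s', ht', hs', hlim'⟩

theorem Preceq.refl {G : Type*} [Group G] [hG : Group.FG G] : Preceq G G := by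
  obtain ⟨S, hS⟩ := Group.fg_def.mp hG
  have h : Gen (fun x : S => (x : G)) := by
    unfold Gen
    rw [Subtype.range_coe_subtype]
    exact hS
  exact preceq_of_marked (s := fun _ => (fun x : S => (x : G))) h (fun _ => h)
    (fun w => Eventually.of_forall fun n => Iff.rfl)

theorem Preceq.trans {G H L : Type*} [Group G] [Group H] [Group L]
    (h1 : Preceq G H) (h2 : Preceq H L) : Preceq G L := by
  obtain ⟨k, v, u, hv, hu, hlim⟩ := h2
  choose s hs hsl using fun m => h1.exists_marking (u m) (hu m)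
  obtain ⟨e, he⟩ := exists_surjective_nat (FreeGroup (Fin k))
  have h3 : ∀ m, ∃ n, ∀ j < m, (FreeGroup.lift (s m n) (e j) = 1 ↔
      FreeGroup.lift (u m) (e j) = 1) := by
    intro m
    have : ∀ᶠ n in atTop, ∀ j ∈ Finset.range m, (FreeGroup.lift (s m n) (e j) = 1 ↔
      FreeGroup.lift (u m) (e j) = 1) := by
      rw [eventually_all_finset]
      intro j _
      exact hsl m (e j)
    obtain ⟨n, hn⟩ := this.exists
    exact ⟨n, fun j hj => hn j (Finset.mem_range.mpr hj)⟩
  choose f hf using h3
  refine ⟨k, v, fun m => s m (f m), hv, fun m => hs m _, ?_⟩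
  intro w
  obtain ⟨j, rfl⟩ := he w
  filter_upwards [hlim (e j), eventually_gt_atTop j] with m hm hj
  rw [hf m j hj, hm]

theorem Preceq.congr_right {G H L : Type*} [Group G] [Group H] [Group L]
    (h : Preceq G H) (e : H ≃* L) : Preceq G L := by
  obtain ⟨k, t, s, ht, hs, hlim⟩ := h
  have hl : ∀ w, FreeGroup.lift (fun i => e (t i)) w = e (FreeGroup.lift t w) := by
    intro w
    have : FreeGroup.lift (fun i => e (t i)) = (e : H →* L).comp (FreeGroup.lift t) := by
      ext i; simp
    rw [this]; rfl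
  refine ⟨k, fun i => e (t i), s, ?_, hs, ?_⟩
  · apply gen_of_lift_surj
    intro y
    obtain ⟨w, hw⟩ := ht.lift_surj (e.symm y)
    exact ⟨w, by rw [hl, hw, MulEquiv.apply_symm_apply]⟩
  · intro w
    filter_upwards [hlim w] with n hn
    rw [hn, hl]
    simp

end Pool.Agent.MP81bbc5
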