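import Pool.Agent.Lib.MP_81bbc5_al.Defs
import Pool.Agent.Lib.MP_81bbc5_al.Marked

/-! Equivalence of the definition with balls in labelled Cayley graphs and convergence of marked
groups. -/

set_option autoImplicit false

namespace Pool.Agent.MP81bbc5

open Filter

theorem evalWord_eq {ι G : Type*} [Group G] (s : ι → G) (L : List (ι × Bool)) :
    evalWord s L = FreeGroup.lift s (FreeGroup.mk L) := by
  rw [FreeGroup.lift_mk]; rfl

theorem evalWord_append {ι G : Type*} [Group G] (s : ι → G) (L : List (ι × Bool)) (x : ι × Bool) :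
    evalWord s (L ++ [x]) = evalWord s L * cond x.2 (s x.1) (s x.1)⁻¹ := by
  simp [evalWord]

theorem ballIso_eval {ι G H : Type*} [Group G] [Group H] {s : ι → G} {t : ι → H} {R : ℕ}
    (φ : cayleyBall s R ≃ cayleyBall t R)
    (h1 : (φ ⟨1, one_mem_cayleyBall s R⟩ : H) = 1)
    (h2 : ∀ (g h : cayleyBall s R) (i : ι),
      (h : G) = (g : G) * s i ↔ (φ h : H) = (φ g : H) * t i)
    (L : List (ι × Bool)) : ∀ (_ : L.length ≤ R) (g : cayleyBall s R), evalWord s L = g →
    (φ g : H) = evalWord t L := by
  induction L using List.reverseRecOn with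
  | nil =>
    intro _ g hg
    have : g = ⟨1, one_mem_cayleyBall s R⟩ := Subtype.ext hg.symm
    rw [this]; exact h1
  | append_singleton L x ih =>
    intro hL g hg
    have hL' : L.length ≤ R := by
      rw [List.length_append] at hL; simp at hL; omega
    let g0 : cayleyBall s R := ⟨evalWord s L, L, hL', rfl⟩
    have ih' := ih hL' g0 rfl
    obtain ⟨i, b⟩ := x
    have hg' : (g : G) = evalWord s L * cond b (s i) (s i)⁻¹ := by rw [← hg, evalWord_append]
    cases b with
    | true =>
      have h3 := (h2 g0 g i).mp hg'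
      rw [h3, ih', evalWord_append]; rfl
    | false =>
      have h4 : (g0 : G) = (g : G) * s i := by
        rw [hg']; simp [g0]
      have h3 := (h2 g g0 i).mp h4
      rw [ih'] at h3
      rw [evalWord_append, h3]
      simp

theorem Prec.preceq {G H : Type*} [Group G] [Group H] (h : Prec G H) : Preceq G H := by
  obtain ⟨T, S, β, hT, hS, hR⟩ := h
  refine preceq_of_marked (ι := T) (s := fun n x => (β n x : G)) (t := fun x : T => (x : H))
    ?_ ?_ ?_
  · unfold Gen
    rw [Subtype.range_coe_subtype]; exact hT
  · intro n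
    unfold Gen
    have : Set.range (fun x : T => (β n x : G)) = (S n : Set G) := by
      ext g
      constructor
      · rintro ⟨x, rfl⟩; exact (β n x).2
      · intro hg; exact ⟨(β n).symm ⟨g, hg⟩, by simp⟩
    rw [this]; exact hS n
  · intro w
    obtain ⟨L, rfl⟩ : ∃ L, FreeGroup.mk L = w := Quot.exists_rep w
    filter_upwards [hR L.length] with n hn
    obtain ⟨φ, h1, h2⟩ := hn
    have h3 := ballIso_eval φ h1 h2 L le_rfl ⟨_, L, le_rfl, rfl⟩ rfl
    rw [← evalWord_eq, ← evalWord_eq]
    constructor
    · intro h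
      rw [← h3, ← h1]
      congr 2
      exact Subtype.ext h
    · intro h
      rw [h, ← h1] at h3
      have h4 := φ.injective (Subtype.ext h3)
      exact congrArg Subtype.val h4

theorem ballIso_of_words {ι G H : Type*} [Group G] [Group H] {s : ι → G} {t : ι → H} {R : ℕ}
    (h : ∀ L1 L2 : List (ι × Bool), L1.length ≤ R + 1 → L2.length ≤ R + 1 →
      (evalWord s L1 = evalWord s L2 ↔ evalWord t L1 = evalWord t L2)) : BallIso s t R := by
  choose w hw hwe using fun g : cayleyBall s R => g.2
  let f : cayleyBall s R → cayleyBall t R := fun g => ⟨evalWord t (w g), w g, hw g, rfl⟩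
  have hf : ∀ (g : cayleyBall s R) (L : List (ι × Bool)), L.length ≤ R + 1 →
      evalWord s L = g → (f g : H) = evalWord t L := by
    intro g L hL hg
    exact (h (w g) L ((hw g).trans (Nat.le_succ R)) hL).mp (by rw [hwe g, hg])
  have hbij : Function.Bijective f := by
    constructor
    · intro g g' hgg
      have h1 : evalWord t (w g) = evalWord t (w g') := congrArg Subtype.val hgg
      have h2 := (h (w g) (w g') ((hw g).trans (Nat.le_succ R)) ((hw g').trans (Nat.le_succ R))).mpr
        h1
      rw [hwe, hwe] at h2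
      exact Subtype.ext h2
    · rintro ⟨y, L, hL, rfl⟩
      refine ⟨⟨evalWord s L, L, hL, rfl⟩, Subtype.ext ?_⟩
      exact hf _ L (hL.trans (Nat.le_succ R)) rfl
  refine ⟨Equiv.ofBijective f hbij, ?_, ?_⟩
  · exact hf _ [] (by simp) rfl
  · intro g g' i
    change (g' : G) = (g : G) * s i ↔ (f g' : H) = (f g : H) * t i
    have h1 : evalWord s (w g ++ [(i, true)]) = (g : G) * s i := by
      rw [evalWord_append, hwe]; rfl
    have h2 : evalWord t (w g ++ [(i, true)]) = (f g : H) * t i := by
      rw [evalWord_append]; rfl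
    have h3 := h (w g') (w g ++ [(i, true)]) ((hw g').trans (Nat.le_succ R)) (by
      rw [List.length_append]; simpa using hw g)
    rw [h1, h2, hwe] at h3
    exact h3

theorem prec_of_preceq {G H : Type*} [Group G] [Group H] (h : Preceq G H) : Prec G H := by
  classical
  obtain ⟨k, t, s, ht, hs, hlim⟩ := h
  let T : Finset H := Finset.univ.image t
  have hTg : Subgroup.closure (T : Set H) = ⊤ := by
    rw [Finset.coe_image, Finset.coe_univ, Set.image_univ]; exact ht
  have ht' : Gen (fun x : T => (x : H)) := by
    unfold Gen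
    rw [Subtype.range_coe_subtype]; exact hTg
  obtain ⟨s', hs', hlim'⟩ := change_marking ht hs hlim (fun x : T => (x : H)) ht'
  have hinj : ∀ᶠ n in atTop, Function.Injective (s' n) := by
    have h1 : ∀ x y : T, ∀ᶠ n in atTop, s' n x = s' n y → x = y := by
      intro x y
      filter_upwards [hlim' (FreeGroup.of x * (FreeGroup.of y)⁻¹)] with n hn hxy
      have h2 := hn.mp (by
        rw [map_mul, map_inv, FreeGroup.lift_apply_of, FreeGroup.lift_apply_of, hxy,
          mul_inv_cancel])
      rw [map_mul, map_inv, FreeGroup.lift_apply_of, FreeGroup.lift_apply_of,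
        mul_inv_eq_one] at h2
      exact Subtype.ext h2
    filter_upwards [eventually_all.mpr fun x => eventually_all.mpr (h1 x)] with n hn x y hxy
    exact hn x y hxy
  obtain ⟨n0, hn0⟩ := eventually_atTop.mp hinj
  let s2 : ℕ → T → G := fun n => s' (n + n0)
  have hs2i : ∀ n, Function.Injective (s2 n) := fun n => hn0 _ (by omega)
  have hs2 : ∀ n, Gen (s2 n) := fun n => hs' _
  have hlim2 : MarkedLim s2 (fun x : T => (x : H)) := fun w =>
    (tendsto_add_atTop_nat n0).eventually (hlim' w)
  let β : ∀ n, T ≃ (Finset.univ.image (s2 n) : Finset G) := fun n =>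
    (Equiv.ofInjective (s2 n) (hs2i n)).trans (Equiv.setCongr (by simp))
  have hβ : ∀ n x, (β n x : G) = s2 n x := fun n x => rfl
  refine ⟨T, fun n => Finset.univ.image (s2 n), β, hTg, ?_, ?_⟩
  · intro n
    rw [Finset.coe_image, Finset.coe_univ, Set.image_univ]; exact hs2 n
  · intro R
    have hfin : {L : List (T × Bool) | L.length ≤ R + 1}.Finite := List.finite_length_le _ _
    have h1 : ∀ᶠ n in atTop, ∀ L1 ∈ {L : List (T × Bool) | L.length ≤ R + 1},
        ∀ L2 ∈ {L : List (T × Bool) | L.length ≤ R + 1},
        (evalWord (s2 n) L1 = evalWord (s2 n) L2 ↔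
          evalWord (fun x : T => (x : H)) L1 = evalWord (fun x : T => (x : H)) L2) := by
      rw [Set.Finite.eventually_all hfin]
      intro L1 _
      rw [Set.Finite.eventually_all hfin]
      intro L2 _
      filter_upwards [hlim2 (FreeGroup.mk L1 * (FreeGroup.mk L2)⁻¹)] with n hn
      rw [map_mul, map_inv, map_mul, map_inv, mul_inv_eq_one, mul_inv_eq_one,
        ← evalWord_eq, ← evalWord_eq, ← evalWord_eq, ← evalWord_eq] at hn
      exact hn
    filter_upwards [h1] with n hn
    exact ballIso_of_words fun L1 L2 h1 h2 => hn L1 h1 L2 h2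

theorem prec_iff_preceq {G H : Type*} [Group G] [Group H] : Prec G H ↔ Preceq G H :=
  ⟨Prec.preceq, prec_of_preceq⟩

end Pool.Agent.MP81bbc5
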