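import Mathlib

/-! The preorder on finitely generated groups defined with balls in labelled Cayley graphs. -/

set_option autoImplicit false

namespace Pool.Agent.MP81bbc5

open Filter

/-- Product in `G` of a word in the letters `s i` and their inverses. -/
def evalWord {ι G : Type*} [Group G] (s : ι → G) (L : List (ι × Bool)) : G :=
  (L.map fun x => cond x.2 (s x.1) (s x.1)⁻¹).prod

/-- The vertices at distance at most `R` from the identity in the Cayley graph of `G` with
respect to the family `s`. -/
def cayleyBall {ι G : Type*} [Group G] (s : ι → G) (R : ℕ) : Set G :=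
  {g | ∃ L : List (ι × Bool), L.length ≤ R ∧ evalWord s L = g}

theorem one_mem_cayleyBall {ι G : Type*} [Group G] (s : ι → G) (R : ℕ) :
    (1 : G) ∈ cayleyBall s R := ⟨[], by simp, rfl⟩

/-- The balls of radius `R` about the identity in the Cayley graphs of `(G, s)` and `(H, t)`
are isomorphic as labelled graphs with base point; the edge labelled `i` goes from `g` to
`g * s i`. -/
def BallIso {ι G H : Type*} [Group G] [Group H] (s : ι → G) (t : ι → H) (R : ℕ) : Prop :=
  ∃ φ : cayleyBall s R ≃ cayleyBall t R,
    (φ ⟨1, one_mem_cayleyBall s R⟩ : H) = 1 ∧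
    ∀ (g h : cayleyBall s R) (i : ι), (h : G) = (g : G) * s i ↔ (φ h : H) = (φ g : H) * t i

/-- `G ⪯ H`: there are a finite generating set `T` of `H`, finite generating sets `S n` of `G`
and bijections between `S n` and `T` such that for every `R` and all large `n`, the balls of
radius `R` about the identity in the labelled Cayley graphs are isomorphic. -/
def Prec (G H : Type*) [Group G] [Group H] : Prop :=
  ∃ (T : Finset H) (S : ℕ → Finset G) (β : ∀ n, T ≃ S n),
    Subgroup.closure (T : Set H) = ⊤ ∧ (∀ n, Subgroup.closure (S n : Set G) = ⊤) ∧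
    ∀ R : ℕ, ∀ᶠ n in atTop, BallIso (fun x : T => (β n x : G)) (fun x : T => (x : H)) R

end Pool.Agent.MP81bbc5
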