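import Pool.Agent.Lib.MP_81bbc5_al.Limit

/-! Generic groups attached to tuples modulo a normal subgroup. -/

set_option autoImplicit false

namespace Pool.Agent.MP81bbc5

open Filter

/-- Words killed by every homomorphism congruent to `f0` modulo `N`. -/
def RR {F G : Type*} [Group F] [Group G] (N : Subgroup G) [N.Normal] (f0 : F →* G) :
    Subgroup F :=
  ⨅ f : {f : F →* G // (QuotientGroup.mk' N).comp f = (QuotientGroup.mk' N).comp f0}, f.1.ker

instance {F G : Type*} [Group F] [Group G] (N : Subgroup G) [N.Normal] (f0 : F →* G) :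
    (RR N f0).Normal := Subgroup.normal_iInf_normal fun f => f.1.normal_ker

theorem mem_RR {F G : Type*} [Group F] [Group G] {N : Subgroup G} [N.Normal] {f0 : F →* G}
    {w : F} : w ∈ RR N f0 ↔ ∀ f : F →* G,
      (QuotientGroup.mk' N).comp f = (QuotientGroup.mk' N).comp f0 → f w = 1 := by
  rw [RR, Subgroup.mem_iInf]
  constructor
  · intro h f hf; exact h ⟨f, hf⟩
  · intro h f; exact h f.1 f.2

theorem RR_congr {F G : Type*} [Group F] [Group G] {N : Subgroup G} [N.Normal] {f0 f1 : F →* G}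
    (h : (QuotientGroup.mk' N).comp f0 = (QuotientGroup.mk' N).comp f1) : RR N f0 = RR N f1 := by
  ext w
  rw [mem_RR, mem_RR, h]

/-- Isomorphic source groups give isomorphic generic groups. -/
theorem RR_iso {F F' G : Type*} [Group F] [Group F'] [Group G] (N : Subgroup G) [N.Normal]
    (f0 : F →* G) (e : F' ≃* F) :
    Nonempty ((F' ⧸ RR N (f0.comp (e : F' →* F))) ≃* (F ⧸ RR N f0)) := by
  refine ⟨QuotientGroup.congr _ _ e ?_⟩
  ext w
  constructor
  · rintro ⟨v, hv, rfl⟩
    rw [mem_RR]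
    intro f hf
    have h1 := mem_RR.mp hv (f.comp (e : F' →* F)) (by
      ext x
      have := DFunLike.congr_fun hf (e x)
      exact this)
    exact h1
  · intro hw
    refine ⟨e.symm w, ?_, by simp⟩
    change e.symm w ∈ RR N (f0.comp (e : F' →* F))
    rw [mem_RR]
    intro f hf
    have h1 := mem_RR.mp hw (f.comp (e.symm : F →* F')) (by
      ext x
      have := DFunLike.congr_fun hf (e.symm x)
      simpa using this)
    exact h1

/-- The Nielsen automorphism multiplying the letters in `β` by words in the letters of `α`. -/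
def nielsen {α β : Type*} (v : β → FreeGroup α) : FreeGroup (α ⊕ β) ≃* FreeGroup (α ⊕ β) :=
  MonoidHom.toMulEquiv
    (FreeGroup.lift (Sum.elim (fun a => FreeGroup.of (Sum.inl a))
      (fun b => FreeGroup.of (Sum.inr b) * FreeGroup.map Sum.inl (v b))))
    (FreeGroup.lift (Sum.elim (fun a => FreeGroup.of (Sum.inl a))
      (fun b => FreeGroup.of (Sum.inr b) * (FreeGroup.map Sum.inl (v b))⁻¹)))
    (by
      have key : ∀ w : FreeGroup α, FreeGroup.lift (Sum.elim (fun a => FreeGroup.of (Sum.inl a))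
          (fun b => FreeGroup.of (Sum.inr b) * (FreeGroup.map Sum.inl (v b))⁻¹))
          (FreeGroup.map Sum.inl w) = (FreeGroup.map Sum.inl w : FreeGroup (α ⊕ β)) := by
        intro w
        have : (FreeGroup.lift (Sum.elim (fun a => FreeGroup.of (Sum.inl a))
          (fun b => FreeGroup.of (Sum.inr b) * (FreeGroup.map Sum.inl (v b))⁻¹))).comp
          (FreeGroup.map Sum.inl) = (FreeGroup.map Sum.inl : FreeGroup α →* FreeGroup (α ⊕ β)) := by
          ext a; simp
        exact DFunLike.congr_fun this w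
      ext x
      rcases x with a | b
      · simp
      · simp [key])
    (by
      have key : ∀ w : FreeGroup α, FreeGroup.lift (Sum.elim (fun a => FreeGroup.of (Sum.inl a))
          (fun b => FreeGroup.of (Sum.inr b) * (FreeGroup.map Sum.inl (v b))))
          (FreeGroup.map Sum.inl w) = (FreeGroup.map Sum.inl w : FreeGroup (α ⊕ β)) := by
        intro w
        have : (FreeGroup.lift (Sum.elim (fun a => FreeGroup.of (Sum.inl a))
          (fun b => FreeGroup.of (Sum.inr b) * (FreeGroup.map Sum.inl (v b))))).comp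
          (FreeGroup.map Sum.inl) = (FreeGroup.map Sum.inl : FreeGroup α →* FreeGroup (α ⊕ β)) := by
          ext a; simp
        exact DFunLike.congr_fun this w
      ext x
      rcases x with a | b
      · simp
      · simp [key])

theorem RR_nielsen {α β G : Type*} [Group G] (N : Subgroup G) [N.Normal] (x : α → G)
    (hx : Gen x) (y : β → G) :
    Nonempty ((FreeGroup (α ⊕ β) ⧸ RR N (FreeGroup.lift (Sum.elim x y))) ≃*
      (FreeGroup (α ⊕ β) ⧸ RR N (FreeGroup.lift (Sum.elim x (1 : β → G))))) := by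
  choose v hv using fun b => hx.lift_surj (y b)
  have h1 : (FreeGroup.lift (Sum.elim x (1 : β → G))).comp
      ((nielsen v : FreeGroup (α ⊕ β) ≃* FreeGroup (α ⊕ β)) : FreeGroup (α ⊕ β) →* _)
      = FreeGroup.lift (Sum.elim x y) := by
    have key : ∀ w : FreeGroup α, FreeGroup.lift (Sum.elim x (1 : β → G))
        (FreeGroup.map Sum.inl w) = FreeGroup.lift x w := by
      intro w
      have : (FreeGroup.lift (Sum.elim x (1 : β → G))).comp (FreeGroup.map Sum.inl)
          = FreeGroup.lift x := by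
        ext a; simp
      exact DFunLike.congr_fun this w
    ext z
    rcases z with a | b
    · simp [nielsen]
    · simp [nielsen, key, hv]
  have h2 := RR_iso N (FreeGroup.lift (Sum.elim x (1 : β → G))) (nielsen v)
  rw [h1] at h2
  exact h2

/-- The swap used in the amalgamation step. -/
def swapE (α₁ α₂ γ : Type*) : α₂ ⊕ (α₁ ⊕ γ) ≃ α₁ ⊕ (α₂ ⊕ γ) where
  toFun := Sum.elim (fun a => Sum.inr (Sum.inl a))
    (Sum.elim (fun a => Sum.inl a) (fun c => Sum.inr (Sum.inr c)))
  invFun := Sum.elim (fun a => Sum.inr (Sum.inl a))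
    (Sum.elim (fun a => Sum.inl a) (fun c => Sum.inr (Sum.inr c)))
  left_inv := by rintro (a | a | a) <;> rfl
  right_inv := by rintro (a | a | a) <;> rfl

/-- Two generating tuples of the same group, padded with ones, have isomorphic generic groups. -/
theorem RR_two {α₁ α₂ γ G : Type*} [Group G] (N : Subgroup G) [N.Normal] (x : α₁ → G)
    (hx : Gen x) (y : α₂ → G) (hy : Gen y) :
    Nonempty ((FreeGroup (α₂ ⊕ (α₁ ⊕ γ)) ⧸
        RR N (FreeGroup.lift (Sum.elim y (1 : α₁ ⊕ γ → G)))) ≃*
      (FreeGroup (α₁ ⊕ (α₂ ⊕ γ)) ⧸ RR N (FreeGroup.lift (Sum.elim x (1 : α₂ ⊕ γ → G))))) := by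
  obtain ⟨e1⟩ := RR_nielsen (β := α₂ ⊕ γ) N x hx (Sum.elim y 1)
  obtain ⟨e2⟩ := RR_nielsen (β := α₁ ⊕ γ) N y hy (Sum.elim x 1)
  have h3 := RR_iso N (FreeGroup.lift (Sum.elim x (Sum.elim y (1 : γ → G))))
    (FreeGroup.freeGroupCongr (swapE α₁ α₂ γ))
  have h4 : (FreeGroup.lift (Sum.elim x (Sum.elim y (1 : γ → G)))).comp
      ((FreeGroup.freeGroupCongr (swapE α₁ α₂ γ) : _ ≃* _) : FreeGroup (α₂ ⊕ (α₁ ⊕ γ)) →* _)
      = FreeGroup.lift (Sum.elim y (Sum.elim x (1 : γ → G))) := by
    ext z
    rcases z with a | a | c <;> simp [swapE]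
  rw [h4] at h3
  obtain ⟨e3⟩ := h3
  exact ⟨e2.symm.trans (e3.trans e1)⟩

/-- Transfer of the relations of the generic group to the limit group. -/
theorem RR_transfer {α β G H : Type*} [Finite α] [Finite β] [Group G] [Group H]
    (hG : Group.IsVirtuallyNilpotent G) (e : ℕ)
    [hn1 : (vp (⊤ : Subgroup G) e).Normal] [hn2 : (vp (⊤ : Subgroup H) e).Normal]
    (hidx : (vp (⊤ : Subgroup G) e).index ≠ 0)
    {s : ℕ → α → G} {t : α → H} (ht : Gen t) (hs : ∀ n, Gen (s n)) (hlim : MarkedLim s t) :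
    ∃ s0 : α → G, Gen s0 ∧
      RR (vp (⊤ : Subgroup H) e) (FreeGroup.lift (Sum.elim t (1 : β → H))) =
      RR (vp (⊤ : Subgroup G) e) (FreeGroup.lift (Sum.elim s0 (1 : β → G))) := by
  have hfin : Finite (G ⧸ vp (⊤ : Subgroup G) e) := Subgroup.index_ne_zero_iff_finite.mp hidx
  have hfinHom : Finite (FreeGroup (α ⊕ β) →* G ⧸ vp (⊤ : Subgroup G) e) :=
    Finite.of_equiv _ (FreeGroup.lift (α := α ⊕ β) (β := G ⧸ vp (⊤ : Subgroup G) e))
  let c : ℕ → (FreeGroup (α ⊕ β) →* G ⧸ vp (⊤ : Subgroup G) e) := fun n =>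
    (QuotientGroup.mk' (vp (⊤ : Subgroup G) e)).comp
      (FreeGroup.lift (Sum.elim (s n) (1 : β → G)))
  obtain ⟨c0, hc0⟩ := Finite.exists_infinite_fiber c
  have hfreq : ∃ᶠ n in atTop, c n = c0 := by
    rw [Nat.frequently_atTop_iff_infinite]
    exact Set.infinite_coe_iff.mp hc0
  have hker := eventually_ker_le hG hlim
  obtain ⟨n0, hn0c, hn0k⟩ := (hfreq.and_eventually hker).exists
  -- the surjection at an index where the kernel inclusion holds
  have hφ : ∀ n, (FreeGroup.lift t).ker ≤ (FreeGroup.lift (s n)).ker →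
      ∃ φ : H →* G, φ.comp (FreeGroup.lift t) = FreeGroup.lift (s n) ∧
        Function.Surjective φ := by
    intro n hn
    let φ : H →* G := (FreeGroup.lift t).liftOfSurjective ht.lift_surj ⟨FreeGroup.lift (s n), hn⟩
    have h1 : φ.comp (FreeGroup.lift t) = FreeGroup.lift (s n) :=
      MonoidHom.liftOfRightInverse_comp _ _ _ _
    refine ⟨φ, h1, ?_⟩
    intro y
    obtain ⟨w, hw⟩ := (hs n).lift_surj y
    exact ⟨FreeGroup.lift t w, by rw [← hw, ← h1]; rfl⟩
  have hφ2 : ∀ (n : ℕ) (φ : H →* G), φ.comp (FreeGroup.lift t) = FreeGroup.lift (s n) →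
      φ.comp (FreeGroup.lift (Sum.elim t (1 : β → H)))
        = FreeGroup.lift (Sum.elim (s n) (1 : β → G)) := by
    intro n φ h
    ext z
    rcases z with a | b
    · have := DFunLike.congr_fun h (FreeGroup.of a)
      simpa using this
    · simp
  refine ⟨s n0, hs n0, le_antisymm ?_ ?_⟩
  · obtain ⟨φ, hφc, hφs⟩ := hφ n0 hn0k
    have hφN : (vp (⊤ : Subgroup H) e).map φ = vp (⊤ : Subgroup G) e := by
      rw [map_vp, Subgroup.map_top_of_surjective _ hφs]
    intro w hw
    rw [mem_RR]
    intro f hf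
    have h1 : ∀ z : α ⊕ β, ∃ ν : H, ν ∈ vp (⊤ : Subgroup H) e ∧
        φ ν = (φ (FreeGroup.lift (Sum.elim t (1 : β → H)) (FreeGroup.of z)))⁻¹ *
          f (FreeGroup.of z) := by
      intro z
      have h2 : (φ (FreeGroup.lift (Sum.elim t (1 : β → H)) (FreeGroup.of z)))⁻¹ *
          f (FreeGroup.of z) ∈ vp (⊤ : Subgroup G) e := by
        rw [← QuotientGroup.eq]
        have h3 := DFunLike.congr_fun hf (FreeGroup.of z)
        have h4 := DFunLike.congr_fun (hφ2 n0 φ hφc) (FreeGroup.of z)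
        simp only [MonoidHom.comp_apply, QuotientGroup.mk'_apply] at h3 h4
        rw [h3, h4]
      rw [← hφN] at h2
      obtain ⟨ν, hν, hν2⟩ := h2
      exact ⟨ν, hν, hν2⟩
    choose ν hν hν2 using h1
    let h : FreeGroup (α ⊕ β) →* H := FreeGroup.lift fun z =>
      FreeGroup.lift (Sum.elim t (1 : β → H)) (FreeGroup.of z) * ν z
    have hh1 : φ.comp h = f := by
      ext z
      simp only [h, MonoidHom.comp_apply, FreeGroup.lift_apply_of, map_mul, hν2]
      group
    have hh2 : (QuotientGroup.mk' (vp (⊤ : Subgroup H) e)).comp h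
        = (QuotientGroup.mk' (vp (⊤ : Subgroup H) e)).comp
          (FreeGroup.lift (Sum.elim t (1 : β → H))) := by
      ext z
      simp only [h, MonoidHom.comp_apply, FreeGroup.lift_apply_of, map_mul]
      have : (QuotientGroup.mk' (vp (⊤ : Subgroup H) e)) (ν z) = 1 :=
        (QuotientGroup.eq_one_iff _).mpr (hν z)
      rw [this, mul_one]
    have h5 := mem_RR.mp hw h hh2
    rw [← hh1, MonoidHom.comp_apply, h5, map_one]
  · intro w hw
    rw [mem_RR]
    intro h hh
    obtain ⟨u, hu⟩ := ht.lift_surj (h w)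
    have h1 : ∃ᶠ n in atTop, FreeGroup.lift (s n) u = 1 := by
      refine (hfreq.and_eventually hker).mono ?_
      rintro n ⟨hnc, hnk⟩
      obtain ⟨φ, hφc, hφs⟩ := hφ n hnk
      have hφN : (vp (⊤ : Subgroup H) e).map φ = vp (⊤ : Subgroup G) e := by
        rw [map_vp, Subgroup.map_top_of_surjective _ hφs]
      have h2 : RR (vp (⊤ : Subgroup G) e) (FreeGroup.lift (Sum.elim (s n0) (1 : β → G)))
          = RR (vp (⊤ : Subgroup G) e) (FreeGroup.lift (Sum.elim (s n) (1 : β → G))) := by
        apply RR_congr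
        exact hn0c.trans hnc.symm
      rw [h2, mem_RR] at hw
      have h3 := hw (φ.comp h) (by
        rw [← hφ2 n φ hφc]
        ext z
        simp only [MonoidHom.comp_apply, QuotientGroup.mk'_apply]
        have h4 := DFunLike.congr_fun hh (FreeGroup.of z)
        simp only [MonoidHom.comp_apply, QuotientGroup.mk'_apply] at h4
        rw [QuotientGroup.eq] at h4 ⊢
        rw [← map_inv, ← map_mul, ← hφN]
        exact ⟨_, h4, rfl⟩)
      rw [MonoidHom.comp_apply, ← hu] at h3
      rw [← hφc]; exact h3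
    obtain ⟨n, hn1, hn2⟩ := (h1.and_eventually (hlim u)).exists
    rw [← hu]
    exact hn2.mp hn1

end Pool.Agent.MP81bbc5
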