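import Pool.Agent.Lib.MP_81bbc5_al.Noeth

/-! Isolators in nilpotent groups. -/

set_option autoImplicit false

namespace Pool.Agent.MP81bbc5

open scoped commutatorElement

theorem comm_pow_left {G : Type*} [Group G] {p q : G} (h : ⁅p, q⁆ ∈ Subgroup.center G) (a : ℕ) :
    ⁅p ^ a, q⁆ = ⁅p, q⁆ ^ a := by
  induction a with
  | zero => simp
  | succ k ihk =>
    have e : ⁅p ^ (k + 1), q⁆ = p * ⁅p ^ k, q⁆ * p⁻¹ * ⁅p, q⁆ := by
      simp only [commutatorElement_def, pow_succ']; group
    rw [e, ihk]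
    have hc2 : ⁅p, q⁆ ^ k ∈ Subgroup.center G := pow_mem h k
    rw [Subgroup.mem_center_iff.mp hc2 p, mul_inv_cancel_right, pow_succ]

theorem comm_pow_right {G : Type*} [Group G] {p q : G} (h : ⁅p, q⁆ ∈ Subgroup.center G) (a : ℕ) :
    ⁅p, q ^ a⁆ = ⁅p, q⁆ ^ a := by
  have h1 : ⁅q, p⁆ ∈ Subgroup.center G := by
    rw [← commutatorElement_inv]; exact inv_mem h
  rw [← commutatorElement_inv, comm_pow_left h1, ← inv_pow, commutatorElement_inv]

/-- Every element has a nontrivial power in `M`. -/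
def Isol {G : Type*} [Group G] (M : Subgroup G) : Prop := ∀ z : G, ∃ a : ℕ, a ≠ 0 ∧ z ^ a ∈ M

theorem isol_step {G : Type*} [Group G] (M : Subgroup G) (d : ℕ)
    (hd : (⊤ : Subgroup G).lowerCentralSeries (d + 1 + 1) = ⊥)
    (h : Isol (M ⊔ (⊤ : Subgroup G).lowerCentralSeries (d + 1))) : Isol M := by
  have hc := lcs_le_center hd
  set Z := (⊤ : Subgroup G).lowerCentralSeries (d + 1) with hZ
  have hmem : ∀ x ∈ M ⊔ Z, ∃ m ∈ M, ∃ z ∈ Z, m * z = x := fun x hx =>
    Subgroup.mem_sup_of_normal_right.mp hx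
  have hZM : ∀ z ∈ Z, ∃ b : ℕ, b ≠ 0 ∧ z ^ b ∈ M := by
    intro z hz
    have hz' : z ∈ Subgroup.closure {g : G | ∃ g₁ ∈ (⊤ : Subgroup G).lowerCentralSeries d,
        ∃ g₂ ∈ (⊤ : Subgroup G), ⁅g₁, g₂⁆ = g} := by
      rw [hZ, Subgroup.lowerCentralSeries_succ, Subgroup.commutator_def] at hz
      exact hz
    have key : z ∈ Z ∧ ∃ b : ℕ, b ≠ 0 ∧ z ^ b ∈ M := by
      induction hz' using Subgroup.closure_induction with
      | mem x hx =>
        obtain ⟨p, hp, q, hq, rfl⟩ := hx
        have hpq : ⁅p, q⁆ ∈ Z := by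
          rw [hZ, Subgroup.lowerCentralSeries_succ]
          exact Subgroup.commutator_mem_commutator hp hq
        refine ⟨hpq, ?_⟩
        obtain ⟨a, ha, hpa⟩ := h p
        obtain ⟨b, hb, hqb⟩ := h q
        refine ⟨a * b, mul_ne_zero ha hb, ?_⟩
        have h1 : ⁅p, q⁆ ^ (a * b) = ⁅p ^ a, q ^ b⁆ := by
          rw [comm_pow_right, comm_pow_left (hc hpq), pow_mul]
          rw [comm_pow_left (hc hpq)]
          exact pow_mem (hc hpq) a
        rw [h1]
        obtain ⟨m, hm, z1, hz1, e1⟩ := hmem _ hpa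
        obtain ⟨m', hm', z2, hz2, e2⟩ := hmem _ hqb
        rw [← e1, ← e2]
        have h2 : ⁅m * z1, m' * z2⁆ = ⁅m, m'⁆ := by
          have c1 := fun g => Subgroup.mem_center_iff.mp (hc hz1) g
          have c2 := fun g => Subgroup.mem_center_iff.mp (hc hz2) g
          have c1' := fun g => Subgroup.mem_center_iff.mp (inv_mem (hc hz1)) g
          have c2' := fun g => Subgroup.mem_center_iff.mp (inv_mem (hc hz2)) g
          rw [commutatorElement_def, commutatorElement_def, mul_inv_rev, mul_inv_rev]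
          calc m * z1 * (m' * z2) * (z1⁻¹ * m⁻¹) * (z2⁻¹ * m'⁻¹)
              = m * (z1 * (m' * z2)) * z1⁻¹ * m⁻¹ * z2⁻¹ * m'⁻¹ := by group
            _ = m * ((m' * z2) * z1) * z1⁻¹ * m⁻¹ * z2⁻¹ * m'⁻¹ := by rw [c1]
            _ = m * m' * (z2 * m⁻¹) * z2⁻¹ * m'⁻¹ := by group
            _ = m * m' * (m⁻¹ * z2) * z2⁻¹ * m'⁻¹ := by rw [c2]
            _ = m * m' * m⁻¹ * m'⁻¹ := by group
        rw [h2, commutatorElement_def]
        exact M.mul_mem (M.mul_mem (M.mul_mem hm hm') (M.inv_mem hm)) (M.inv_mem hm')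
      | one => exact ⟨one_mem _, 1, one_ne_zero, by simp⟩
      | mul x y hx' hy' hx hy =>
        have cast : ∀ {u : G}, u ∈ Subgroup.closure {g : G |
            ∃ g₁ ∈ (⊤ : Subgroup G).lowerCentralSeries d,
            ∃ g₂ ∈ (⊤ : Subgroup G), ⁅g₁, g₂⁆ = g} → u ∈ Z := by
          intro u hu
          rw [hZ, Subgroup.lowerCentralSeries_succ, Subgroup.commutator_def]
          exact hu
        obtain ⟨hxZ, a, ha, hxa⟩ := hx (cast hx')
        obtain ⟨hyZ, b, hb, hyb⟩ := hy (cast hy')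
        refine ⟨mul_mem hxZ hyZ, a * b, mul_ne_zero ha hb, ?_⟩
        have hcomm : Commute x y := (Subgroup.mem_center_iff.mp (hc hxZ) y).symm
        rw [hcomm.mul_pow, pow_mul, mul_comm a b, pow_mul]
        exact M.mul_mem (M.pow_mem hxa b) (M.pow_mem hyb a)
      | inv x hx' hx =>
        have cast : x ∈ Z := by
          rw [hZ, Subgroup.lowerCentralSeries_succ, Subgroup.commutator_def]
          exact hx'
        obtain ⟨hxZ, a, ha, hxa⟩ := hx cast
        exact ⟨inv_mem hxZ, a, ha, by rw [inv_pow]; exact M.inv_mem hxa⟩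
    exact key.2
  intro z
  obtain ⟨a, ha, hza⟩ := h z
  obtain ⟨m, hm, ζ, hζ, e⟩ := hmem _ hza
  obtain ⟨b, hb, hζb⟩ := hZM ζ hζ
  refine ⟨a * b, mul_ne_zero ha hb, ?_⟩
  have hcomm : Commute m ζ := Subgroup.mem_center_iff.mp (hc hζ) m
  rw [pow_mul, ← e, hcomm.mul_pow]
  exact M.mul_mem (M.pow_mem hm b) hζb

theorem isol_aux : ∀ (c : ℕ) (G : Type*) [Group G] (M : Subgroup G),
    (⊤ : Subgroup G).lowerCentralSeries (c + 1) = ⊥ →
    Isol (M ⊔ (⊤ : Subgroup G).lowerCentralSeries 1) → Isol M := by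
  intro c
  induction c with
  | zero =>
    intro G _ M hc h
    rw [hc, sup_bot_eq] at h
    exact h
  | succ c ih =>
    intro G _ M hc h
    set A := (⊤ : Subgroup G).lowerCentralSeries (c + 1) with hA
    have hq := lcs_quot A le_rfl
    have h1 : Isol (M.map (QuotientGroup.mk' A)) := by
      refine ih (G ⧸ A) (M.map (QuotientGroup.mk' A)) hq ?_
      intro z
      obtain ⟨x, rfl⟩ := QuotientGroup.mk_surjective z
      obtain ⟨a, ha, hxa⟩ := h x
      refine ⟨a, ha, ?_⟩
      have h2 := Subgroup.map_lowerCentralSeries (⊤ : Subgroup G) (QuotientGroup.mk' A) 1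
      rw [Subgroup.map_top_of_surjective _ (QuotientGroup.mk'_surjective A)] at h2
      rw [← h2, ← Subgroup.map_sup]
      exact ⟨x ^ a, hxa, by simp⟩
    apply isol_step M c hc
    intro z
    obtain ⟨a, ha, hza⟩ := h1 (z : G ⧸ A)
    refine ⟨a, ha, ?_⟩
    obtain ⟨m, hm, hmz⟩ := hza
    have h3 : m⁻¹ * z ^ a ∈ A := by
      rw [← QuotientGroup.eq]
      simpa using hmz
    have h4 : z ^ a = m * (m⁻¹ * z ^ a) := by group
    rw [h4]
    exact mul_mem (Subgroup.mem_sup_left hm) (Subgroup.mem_sup_right h3)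

/-- In a nilpotent group, isolation modulo the commutator subgroup implies isolation. -/
theorem isol_of_comm {G : Type*} [Group G] [h : Group.IsNilpotent G] (M : Subgroup G)
    (hM : Isol (M ⊔ commutator G)) : Isol M := by
  obtain ⟨c, hc⟩ := Subgroup.nilpotent_iff_lowerCentralSeries.mp h
  refine isol_aux c G M ?_ ?_
  · rw [eq_bot_iff, ← hc]
    exact Subgroup.lowerCentralSeries_antitone _ (Nat.le_succ c)
  · rw [Subgroup.top_lowerCentralSeries_one]; exact hM

/-- The finite-index property modulo commutators for a perturbed generating tuple. -/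
theorem isol_perturb {G β : Type*} [Group G] [Finite β] [h : Group.IsNilpotent G]
    (n m0 : β → G) (hn : Subgroup.closure (Set.range n) = ⊤) (r : ℕ) :
    Isol (Subgroup.closure (Set.range fun b => m0 b * ((m0 b)⁻¹ * n b) ^ (2 * r + 1))) := by
  set M := Subgroup.closure (Set.range fun b => m0 b * ((m0 b)⁻¹ * n b) ^ (2 * r + 1)) with hM
  apply isol_of_comm
  set C := M ⊔ commutator G with hC
  have hcomC : ∀ x y : G, ⁅x, y⁆ ∈ C := fun x y => by
    refine Subgroup.mem_sup_right ?_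
    rw [commutator_def]
    exact Subgroup.commutator_mem_commutator (Subgroup.mem_top x) (Subgroup.mem_top y)
  have hCn : C.Normal := by
    constructor
    intro x hx g
    have : g * x * g⁻¹ = ⁅g, x⁆ * x := by rw [commutatorElement_def]; group
    rw [this]
    exact mul_mem (hcomC g x) hx
  have hfg : Group.FG G := by
    rw [Group.fg_iff]
    exact ⟨Set.range n, hn, Set.finite_range n⟩
  let _ : CommGroup (G ⧸ C) :=
    { (inferInstance : Group (G ⧸ C)) with
      mul_comm := fun a b => by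
        obtain ⟨x, rfl⟩ := QuotientGroup.mk_surjective a
        obtain ⟨y, rfl⟩ := QuotientGroup.mk_surjective b
        change ((x * y : G) : G ⧸ C) = ((y * x : G) : G ⧸ C)
        rw [QuotientGroup.eq]
        have : (x * y)⁻¹ * (y * x) = ⁅y⁻¹, x⁻¹⁆ := by
          rw [commutatorElement_def]; group
        rw [this]; exact hcomC _ _ }
  have h1 : Group.FG (G ⧸ C) := QuotientGroup.fg C
  have h2 : AddGroup.FG (Additive (G ⧸ C)) := GroupFG.iff_add_fg.mp h1
  have h3 : Module.Finite ℤ (Additive (G ⧸ C)) := Module.Finite.iff_addGroup_fg.mpr h2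
  have hle : (⊤ : Submodule ℤ (Additive (G ⧸ C))) ≤ (Ideal.span {2} : Ideal ℤ) • ⊤ := by
    intro a _
    obtain ⟨x, hx⟩ := QuotientGroup.mk_surjective a.toMul
    have hax : a = Additive.ofMul ((x : G) : G ⧸ C) := by
      rw [hx]; rfl
    rw [hax]
    have hxn : x ∈ Subgroup.closure (Set.range n) := by rw [hn]; exact Subgroup.mem_top x
    clear hax hx
    induction hxn using Subgroup.closure_induction with
    | mem y hy =>
      obtain ⟨b, rfl⟩ := hy
      have h4 : m0 b * ((m0 b)⁻¹ * n b) ^ (2 * r + 1) ∈ C :=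
        Subgroup.mem_sup_left (Subgroup.subset_closure ⟨b, rfl⟩)
      rw [← QuotientGroup.eq_one_iff] at h4
      have h5 : Additive.ofMul ((m0 b : G) : G ⧸ C) + (2 * r + 1) •
          (-Additive.ofMul ((m0 b : G) : G ⧸ C) + Additive.ofMul ((n b : G) : G ⧸ C)) = 0 := h4
      have h6 : Additive.ofMul ((n b : G) : G ⧸ C) = (2 : ℤ) •
          ((r : ℤ) • Additive.ofMul ((m0 b : G) : G ⧸ C) -
            (r : ℤ) • Additive.ofMul ((n b : G) : G ⧸ C)) := by
        rw [← natCast_zsmul] at h5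
        push_cast at h5
        have h7 : Additive.ofMul ((m0 b : G) : G ⧸ C) + (2 * (r : ℤ) + 1) •
          (-Additive.ofMul ((m0 b : G) : G ⧸ C) + Additive.ofMul ((n b : G) : G ⧸ C))
          = Additive.ofMul ((n b : G) : G ⧸ C) - (2 : ℤ) •
          ((r : ℤ) • Additive.ofMul ((m0 b : G) : G ⧸ C) -
            (r : ℤ) • Additive.ofMul ((n b : G) : G ⧸ C)) := by
          module
        rw [h7] at h5
        exact sub_eq_zero.mp h5
      rw [h6]
      exact Submodule.smul_mem_smul (Ideal.mem_span_singleton_self 2) Submodule.mem_top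
    | one => exact Submodule.zero_mem _
    | mul y z _ _ hy hz => exact Submodule.add_mem _ hy hz
    | inv y _ hy => exact Submodule.neg_mem _ hy
  obtain ⟨ρ, hρ1, hρ⟩ := Submodule.exists_sub_one_mem_and_smul_eq_zero_of_fg_of_le_smul
    (Ideal.span {2} : Ideal ℤ) (⊤ : Submodule ℤ (Additive (G ⧸ C))) h3.fg_top hle
  have hρ0 : ρ.natAbs ≠ 0 := by
    rw [Ideal.mem_span_singleton] at hρ1
    omega
  intro z
  refine ⟨ρ.natAbs, hρ0, ?_⟩
  rw [← QuotientGroup.eq_one_iff, QuotientGroup.mk_pow]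
  have h8 : ρ • Additive.ofMul ((z : G) : G ⧸ C) = 0 := hρ _ Submodule.mem_top
  have h9 : ρ.natAbs • Additive.ofMul ((z : G) : G ⧸ C) = 0 := by
    rcases Int.natAbs_eq ρ with h | h
    · rw [h] at h8; simpa using h8
    · rw [h] at h8; simpa using h8
  exact h9

end Pool.Agent.MP81bbc5
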