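import Pool.Agent.Lib.MP_81bbc5_al.Zeros
import Pool.Agent.Lib.MP_81bbc5_al.Isol
import Pool.Agent.Lib.MP_81bbc5_al.Generic

/-! Density of generating tuples and the embedding into the generic group. -/

set_option autoImplicit false

namespace Pool.Agent.MP81bbc5

open Filter
open scoped commutatorElement

theorem word_poly {ι G : Type*} [Group G] (N : Subgroup G) [N.Normal] (x γ : ι → G)
    (hγ : ∀ i, γ i ∈ N) (w : FreeGroup ι) :
    ∃ q ∈ polySeq N, ∀ t : ℕ,
      FreeGroup.lift (fun i => x i * γ i ^ t) w = (q t : G) * FreeGroup.lift x w := by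
  have hconj : ∀ (g : G) (q : ℕ → N), q ∈ polySeq N →
      (fun t => (MulAut.conjNormal g : MulAut N) (q t)) ∈ polySeq N := fun g q hq =>
    map_polySeq ((MulAut.conjNormal g : MulAut N) : N →* N) hq
  have hof : ∀ i : ι, ∃ q ∈ polySeq N, ∀ t : ℕ,
      x i * γ i ^ t = (q t : G) * x i := by
    intro i
    refine ⟨_, hconj (x i) _ (pow_mem_polySeq (⟨γ i, hγ i⟩ : N)), ?_⟩
    intro t
    rw [MulAut.conjNormal_apply]
    simp
  induction w using FreeGroup.induction_on with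
  | C1 => exact ⟨1, one_mem _, fun t => by simp⟩
  | of i =>
    obtain ⟨q, hq, h⟩ := hof i
    exact ⟨q, hq, fun t => by rw [FreeGroup.lift_apply_of, FreeGroup.lift_apply_of]; exact h t⟩
  | inv_of i _ =>
    obtain ⟨q, hq, h⟩ := hof i
    refine ⟨_, hconj (x i)⁻¹ _ (inv_mem hq), ?_⟩
    intro t
    have h1 : FreeGroup.lift (fun i => x i * γ i ^ t) (FreeGroup.of i)⁻¹ = (x i * γ i ^ t)⁻¹ := by
      rw [map_inv, FreeGroup.lift_apply_of]
    have h2 : FreeGroup.lift x (FreeGroup.of i)⁻¹ = (x i)⁻¹ := by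
      rw [map_inv, FreeGroup.lift_apply_of]
    rw [h1, h2, h t, MulAut.conjNormal_apply]
    simp
  | mul v w hv hw =>
    obtain ⟨q1, hq1, h1⟩ := hv
    obtain ⟨q2, hq2, h2⟩ := hw
    refine ⟨q1 * _, mul_mem hq1 (hconj (FreeGroup.lift x v) _ hq2), ?_⟩
    intro t
    rw [map_mul, map_mul, h1 t, h2 t, Pi.mul_apply, Subgroup.coe_mul, MulAut.conjNormal_apply]
    group

theorem line_finite {ι G : Type*} [Group G] (N : Subgroup G) [N.Normal]
    [hnil : Group.IsNilpotent N] (hTF : TF N) (x γ : ι → G) (hγ : ∀ i, γ i ∈ N)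
    (w : FreeGroup ι) (t0 : ℕ) (h0 : FreeGroup.lift (fun i => x i * γ i ^ t0) w ≠ 1) :
    {t : ℕ | FreeGroup.lift (fun i => x i * γ i ^ t) w = 1}.Finite := by
  obtain ⟨q, hq, h⟩ := word_poly N x γ hγ w
  by_cases hx : FreeGroup.lift x w ∈ N
  · have hTF' : ∀ z ∈ Subgroup.center N, ∀ m : ℕ, m ≠ 0 → z ^ m = 1 → z = 1 := by
      intro z _ m hm hz
      have := hTF z z.2 m hm (by rw [← Subgroup.coe_pow, hz, Subgroup.coe_one])
      exact Subtype.ext this
    have hp : ∀ t, (((q * (fun _ => (⟨FreeGroup.lift x w, hx⟩ : N)) : ℕ → N) t : N) : G)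
        = FreeGroup.lift (fun i => x i * γ i ^ t) w := by
      intro t
      rw [h t]; rfl
    have h1 := finite_zeros N hTF' (q * fun _ => (⟨FreeGroup.lift x w, hx⟩ : N))
      (mul_mem hq (const_mem _)) t0 (by
        intro h2
        apply h0
        rw [← hp, h2, Subgroup.coe_one])
    refine h1.subset ?_
    intro t ht
    change FreeGroup.lift (fun i => x i * γ i ^ t) w = 1 at ht
    exact Subtype.ext (by rw [hp, ht, Subgroup.coe_one])
  · convert Set.finite_empty
    ext t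
    simp only [Set.mem_ofPred_eq, Set.mem_empty_iff_false, iff_false]
    intro ht
    rw [h t] at ht
    apply hx
    have : FreeGroup.lift x w = ((q t : G))⁻¹ := (inv_eq_of_mul_eq_one_right ht).symm
    rw [this]
    exact N.inv_mem (q t).2

theorem exists_time {ι G : Type*} [Group G] (N : Subgroup G) [N.Normal]
    [hnil : Group.IsNilpotent N] (hTF : TF N) (x γ : ι → G) (hγ : ∀ i, γ i ∈ N)
    (W : Finset (FreeGroup ι))
    (h : ∀ w ∈ W, ∃ t0 : ℕ, FreeGroup.lift (fun i => x i * γ i ^ t0) w ≠ 1)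
    (S : Set ℕ) (hS : S.Infinite) :
    ∃ t ∈ S, ∀ w ∈ W, FreeGroup.lift (fun i => x i * γ i ^ t) w ≠ 1 := by
  have hfin : (⋃ w ∈ W, {t : ℕ | FreeGroup.lift (fun i => x i * γ i ^ t) w = 1}).Finite := by
    refine Set.Finite.biUnion W.finite_toSet ?_
    intro w hw
    obtain ⟨t0, h0⟩ := h w hw
    exact line_finite N hTF x γ hγ w t0 h0
  obtain ⟨t, ht, htn⟩ := hS.exists_notMem_finite hfin
  refine ⟨t, ht, fun w hw hc => htn ?_⟩
  exact Set.mem_biUnion hw hc

theorem common_point {ι G : Type*} [Group G] (N : Subgroup G) [N.Normal]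
    [hnil : Group.IsNilpotent N] (hTF : TF N) (x : ι → G) (W : Finset (FreeGroup ι))
    (h : ∀ w ∈ W, ∃ y : ι → G, (∀ i, (x i)⁻¹ * y i ∈ N) ∧ FreeGroup.lift y w ≠ 1) :
    ∃ y : ι → G, (∀ i, (x i)⁻¹ * y i ∈ N) ∧ ∀ w ∈ W, FreeGroup.lift y w ≠ 1 := by
  classical
  induction W using Finset.induction_on with
  | empty => exact ⟨x, fun i => by simp, by simp⟩
  | insert a W _ ih =>
    obtain ⟨y, hy, hyW⟩ := ih (fun w hw => h w (Finset.mem_insert_of_mem hw))
    obtain ⟨y', hy', hya⟩ := h a (Finset.mem_insert_self a W)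
    have hγ : ∀ i, (y i)⁻¹ * y' i ∈ N := by
      intro i
      have : (y i)⁻¹ * y' i = ((x i)⁻¹ * y i)⁻¹ * ((x i)⁻¹ * y' i) := by group
      rw [this]
      exact N.mul_mem (N.inv_mem (hy i)) (hy' i)
    have e0 : (fun i => y i * ((y i)⁻¹ * y' i) ^ 0) = y := by funext i; simp
    have e1 : (fun i => y i * ((y i)⁻¹ * y' i) ^ 1) = y' := by funext i; simp
    obtain ⟨t, -, ht⟩ := exists_time N hTF y (fun i => (y i)⁻¹ * y' i) hγ (insert a W) (by
      intro w hw
      rcases Finset.mem_insert.mp hw with rfl | hw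
      · exact ⟨1, by rw [e1]; exact hya⟩
      · exact ⟨0, by rw [e0]; exact hyW w hw⟩) Set.univ Set.infinite_univ
    refine ⟨fun i => y i * ((y i)⁻¹ * y' i) ^ t, ?_, ht⟩
    intro i
    rw [← mul_assoc]
    exact N.mul_mem (hy i) (N.pow_mem (hγ i) t)

/-- Density of generating tuples. -/
theorem exists_generating {α β G : Type*} [Finite α] [Finite β] [Group G] (N : Subgroup G)
    [N.Normal] [hnil : Group.IsNilpotent N] (hTF : TF N) (g : α → G) (hg : Gen g)
    (n : β → G) (hn : Subgroup.closure (Set.range n) = N)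
    (W : Finset (FreeGroup (α ⊕ β)))
    (h : ∀ w ∈ W, w ∉ RR N (FreeGroup.lift (Sum.elim g (1 : β → G)))) :
    ∃ y : α ⊕ β → G, Gen y ∧
      (∀ i, (Sum.elim g (1 : β → G) i)⁻¹ * y i ∈ N) ∧ ∀ w ∈ W, FreeGroup.lift y w ≠ 1 := by
  classical
  have := Fintype.ofFinite α
  have hnN : ∀ b, n b ∈ N := fun b => by rw [← hn]; exact Subgroup.subset_closure ⟨b, rfl⟩
  obtain ⟨y0, hy0, hy0W⟩ := common_point N hTF (Sum.elim g (1 : β → G)) W (by
    intro w hw
    have h1 := h w hw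
    rw [mem_RR] at h1
    push Not at h1
    obtain ⟨f, hf, hfw⟩ := h1
    refine ⟨fun i => f (FreeGroup.of i), ?_, ?_⟩
    · intro i
      rw [← QuotientGroup.eq]
      have h2 := DFunLike.congr_fun hf (FreeGroup.of i)
      simp only [MonoidHom.comp_apply, QuotientGroup.mk'_apply, FreeGroup.lift_apply_of] at h2
      exact h2.symm
    · have h3 : FreeGroup.lift (fun i => f (FreeGroup.of i)) = f := by ext i; simp
      rw [h3]; exact hfw)
  have hm0 : ∀ b, y0 (Sum.inr b) ∈ N := fun b => by simpa using hy0 (Sum.inr b)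
  -- first line: perturb the second block
  let γ1 : α ⊕ β → G := Sum.elim (fun _ => 1) (fun b => (y0 (Sum.inr b))⁻¹ * n b)
  have hγ1 : ∀ i, γ1 i ∈ N := by
    rintro (a | b)
    · exact N.one_mem
    · exact N.mul_mem (N.inv_mem (hm0 b)) (hnN b)
  have hodd : {s : ℕ | ∃ r, s = 2 * r + 1}.Infinite := by
    rw [Set.infinite_iff_exists_gt]
    intro a
    exact ⟨2 * a + 1, ⟨a, rfl⟩, by omega⟩
  obtain ⟨s, ⟨r, rfl⟩, hs⟩ := exists_time N hTF y0 γ1 hγ1 W (fun w hw => ⟨0, by
    have e0 : (fun i => y0 i * γ1 i ^ 0) = y0 := by funext i; simp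
    rw [e0]; exact hy0W w hw⟩) _ hodd
  let m : β → G := fun b => y0 (Sum.inr b) * ((y0 (Sum.inr b))⁻¹ * n b) ^ (2 * r + 1)
  have hmN : ∀ b, m b ∈ N := fun b =>
    N.mul_mem (hm0 b) (N.pow_mem (N.mul_mem (N.inv_mem (hm0 b)) (hnN b)) _)
  -- isolation
  have hisol : ∀ z ∈ N, ∃ a : ℕ, a ≠ 0 ∧ z ^ a ∈ Subgroup.closure (Set.range m) := by
    intro z hz
    have hn' : Subgroup.closure (Set.range fun b => (⟨n b, hnN b⟩ : N)) = ⊤ := by
      apply Subgroup.map_injective N.subtype_injective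
      rw [MonoidHom.map_closure, ← Set.range_comp, ← MonoidHom.range_eq_map,
        Subgroup.range_subtype]
      exact hn
    obtain ⟨a, ha, hza⟩ := isol_perturb (fun b => (⟨n b, hnN b⟩ : N))
      (fun b => (⟨y0 (Sum.inr b), hm0 b⟩ : N)) hn' r ⟨z, hz⟩
    refine ⟨a, ha, ?_⟩
    have h1 : N.subtype ((⟨z, hz⟩ : N) ^ a) ∈ (Subgroup.closure (Set.range fun b =>
        (⟨y0 (Sum.inr b), hm0 b⟩ : N) * ((⟨y0 (Sum.inr b), hm0 b⟩ : N)⁻¹ *
          (⟨n b, hnN b⟩ : N)) ^ (2 * r + 1))).map N.subtype := ⟨_, hza, rfl⟩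
    rw [MonoidHom.map_closure, ← Set.range_comp] at h1
    exact h1
  -- the perturbation of the first block
  let u : α → G := fun a => (g a)⁻¹ * y0 (Sum.inl a)
  have huN : ∀ a, u a ∈ N := fun a => hy0 (Sum.inl a)
  choose E hE0 hE using fun a => hisol (u a) (huN a)
  let P : ℕ := ∏ a, E a
  have hP0 : P ≠ 0 := Finset.prod_ne_zero_iff.mpr fun a _ => hE0 a
  have hP : ∀ a, u a ^ P ∈ Subgroup.closure (Set.range m) := by
    intro a
    obtain ⟨k, hk⟩ := Finset.dvd_prod_of_mem E (Finset.mem_univ a)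
    change u a ^ (∏ a, E a) ∈ _
    rw [hk, pow_mul]
    exact Subgroup.pow_mem _ (hE a) k
  let x2 : α ⊕ β → G := Sum.elim g m
  let γ2 : α ⊕ β → G := Sum.elim u (fun _ => 1)
  have hγ2 : ∀ i, γ2 i ∈ N := by
    rintro (a | b)
    · exact huN a
    · exact N.one_mem
  have hmul : {t : ℕ | ∃ j, t = P * j}.Infinite := by
    rw [Set.infinite_iff_exists_gt]
    intro a
    refine ⟨P * (a + 1), ⟨a + 1, rfl⟩, ?_⟩
    have : 1 ≤ P := Nat.pos_of_ne_zero hP0
    nlinarith
  obtain ⟨t, ⟨j, rfl⟩, ht⟩ := exists_time N hTF x2 γ2 hγ2 W (fun w hw => ⟨1, by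
    have e1 : (fun i => x2 i * γ2 i ^ 1) = fun i => y0 i * γ1 i ^ (2 * r + 1) := by
      funext i
      rcases i with a | b
      · simp [x2, γ2, γ1, u]
      · simp [x2, γ2, γ1, m]
    rw [e1]; exact hs w hw⟩) _ hmul
  refine ⟨fun i => x2 i * γ2 i ^ (P * j), ?_, ?_, ht⟩
  · unfold Gen
    have h1 : Subgroup.closure (Set.range m) ≤
        Subgroup.closure (Set.range fun i => x2 i * γ2 i ^ (P * j)) := by
      rw [Subgroup.closure_le]
      rintro _ ⟨b, rfl⟩
      exact Subgroup.subset_closure ⟨Sum.inr b, by simp [x2, γ2]⟩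
    rw [eq_top_iff, ← hg, Subgroup.closure_le]
    rintro _ ⟨a, rfl⟩
    have h2 : x2 (Sum.inl a) * γ2 (Sum.inl a) ^ (P * j) ∈
        Subgroup.closure (Set.range fun i => x2 i * γ2 i ^ (P * j)) :=
      Subgroup.subset_closure ⟨Sum.inl a, rfl⟩
    have h3 : u a ^ (P * j) ∈ Subgroup.closure (Set.range fun i => x2 i * γ2 i ^ (P * j)) := by
      apply h1
      rw [pow_mul]
      exact Subgroup.pow_mem _ (hP a) j
    have h4 : g a = (x2 (Sum.inl a) * γ2 (Sum.inl a) ^ (P * j)) * (u a ^ (P * j))⁻¹ := by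
      simp [x2, γ2]
    rw [SetLike.mem_coe, h4]
    exact Subgroup.mul_mem _ h2 (Subgroup.inv_mem _ h3)
  · rintro (a | b)
    · simp only [x2, γ2, Sum.elim_inl, inv_mul_cancel_left]
      exact N.pow_mem (huN a) _
    · simpa [x2, γ2] using hmN b

/-- The group embeds, in the sense of markings, into the generic group. -/
theorem preceq_generic {α β G : Type*} [Finite α] [Finite β] [Group G] (N : Subgroup G)
    [N.Normal] [hnil : Group.IsNilpotent N] (hTF : TF N) (g : α → G) (hg : Gen g)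
    (n : β → G) (hn : Subgroup.closure (Set.range n) = N) :
    Preceq G (FreeGroup (α ⊕ β) ⧸ RR N (FreeGroup.lift (Sum.elim g (1 : β → G)))) := by
  classical
  obtain ⟨e, he⟩ := exists_surjective_nat (FreeGroup (α ⊕ β))
  set R := RR N (FreeGroup.lift (Sum.elim g (1 : β → G))) with hR
  let W : ℕ → Finset (FreeGroup (α ⊕ β)) := fun k =>
    ((Finset.range k).image e).filter (fun w => w ∉ R)
  choose y hyG hyN hyW using fun k => exists_generating N hTF g hg n hn (W k) (by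
    intro w hw
    exact (Finset.mem_filter.mp hw).2)
  have hlift : ∀ w, FreeGroup.lift (fun i => ((FreeGroup.of i : FreeGroup (α ⊕ β)) :
      FreeGroup (α ⊕ β) ⧸ R)) w = (w : FreeGroup (α ⊕ β) ⧸ R) := by
    intro w
    have : FreeGroup.lift (fun i => ((FreeGroup.of i : FreeGroup (α ⊕ β)) :
      FreeGroup (α ⊕ β) ⧸ R)) = QuotientGroup.mk' R := by
      ext i; simp
    rw [this]; rfl
  refine preceq_of_marked (s := y)
    (t := fun i => ((FreeGroup.of i : FreeGroup (α ⊕ β)) : FreeGroup (α ⊕ β) ⧸ R)) ?_ hyG ?_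
  · apply gen_of_lift_surj
    intro z
    obtain ⟨w, rfl⟩ := QuotientGroup.mk_surjective z
    exact ⟨w, hlift w⟩
  · intro w
    obtain ⟨j, rfl⟩ := he w
    filter_upwards [eventually_gt_atTop j] with k hk
    rw [hlift, QuotientGroup.eq_one_iff]
    by_cases hw : e j ∈ R
    · refine iff_of_true ?_ hw
      rw [hR, mem_RR] at hw
      apply hw
      ext i
      simp only [MonoidHom.comp_apply, QuotientGroup.mk'_apply, FreeGroup.lift_apply_of]
      exact (QuotientGroup.eq.mpr (hyN k i)).symm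
    · refine iff_of_false ?_ hw
      apply hyW k
      exact Finset.mem_filter.mpr ⟨Finset.mem_image.mpr ⟨j, Finset.mem_range.mpr hk, rfl⟩, hw⟩

end Pool.Agent.MP81bbc5
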