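import Pool.Agent.Lib.MP_81bbc5_al.Power
import Pool.Agent.Lib.MP_81bbc5_al.Marked

/-! Limits of markings of virtually nilpotent groups. -/

set_option autoImplicit false

namespace Pool.Agent.MP81bbc5

open Filter
open scoped commutatorElement

theorem vn_of_surjective {G Q : Type*} [Group G] [Group Q] (h : Group.IsVirtuallyNilpotent G)
    (f : G →* Q) (hf : Function.Surjective f) : Group.IsVirtuallyNilpotent Q := by
  obtain ⟨N, hN, hfi⟩ := h
  refine ⟨N.map f, ?_, ?_⟩
  · exact Group.nilpotent_of_surjective (f.subgroupMap N) (f.subgroupMap_surjective N)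
  · constructor
    intro h0
    have h1 := Subgroup.index_map_dvd N hf
    rw [h0, Nat.zero_dvd] at h1
    exact hfi.index_ne_zero h1

theorem noethG_of_vn (G : Type*) [Group G] [hG : Group.FG G] (h : Group.IsVirtuallyNilpotent G) :
    NoethG G := by
  obtain ⟨N0, hN0, hfi⟩ := h
  let N := N0.normalCore
  have hNfi : N.FiniteIndex := inferInstance
  have hNnil : Group.IsNilpotent N := by
    have h1 : Group.IsNilpotent (N.subgroupOf N0) := inferInstance
    exact Group.nilpotent_of_mulEquiv (Subgroup.subgroupOfEquivOfLe (Subgroup.normalCore_le N0))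
  have hNfg : Group.FG N := inferInstance
  have hNo := noethG_of_nilpotent N
  refine noethG_of_ext N ?_ ?_
  · intro K hK
    have h7 : (K.subgroupOf N).map N.subtype = K := by
      rw [Subgroup.subgroupOf_map_subtype, inf_eq_left.mpr hK]
    rw [← h7]
    exact fg_map _ (hNo _)
  · intro K
    have hfin : Finite (G ⧸ N) := Subgroup.finite_quotient_of_finiteIndex
    exact (Group.fg_iff_subgroup_fg K).mp inferInstance

/-- The verbal-type subgroup: words killed by all homomorphisms to `G`. -/
def ver (F G : Type*) [Group F] [Group G] : Subgroup F := ⨅ f : F →* G, f.ker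

instance (F G : Type*) [Group F] [Group G] : (ver F G).Normal :=
  Subgroup.normal_iInf_normal fun f => f.normal_ker

theorem ver_vn {ι G : Type*} [Finite ι] [Group G] (h : Group.IsVirtuallyNilpotent G) :
    Group.IsVirtuallyNilpotent (FreeGroup ι ⧸ ver (FreeGroup ι) G) := by
  obtain ⟨N0, hN0, hfi⟩ := h
  let N := N0.normalCore
  have hNfi : N.FiniteIndex := inferInstance
  have hNnil : Group.IsNilpotent N := by
    have h1 : Group.IsNilpotent (N.subgroupOf N0) := inferInstance
    exact Group.nilpotent_of_mulEquiv (Subgroup.subgroupOfEquivOfLe (Subgroup.normalCore_le N0))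
  obtain ⟨c, hc⟩ := Subgroup.nilpotent_iff_lowerCentralSeries.mp hNnil
  have hc' : N.lowerCentralSeries c = ⊥ := by
    have h1 := Subgroup.top_subtype_lowerCentralSeries N c
    rw [hc, Subgroup.map_bot] at h1
    exact h1.symm
  have hfin : Finite (G ⧸ N) := Subgroup.finite_quotient_of_finiteIndex
  have hfinHom : Finite (FreeGroup ι →* G ⧸ N) :=
    Finite.of_equiv _ (FreeGroup.lift (α := ι) (β := G ⧸ N))
  let K1 : Subgroup (FreeGroup ι) := ⨅ g : FreeGroup ι →* G ⧸ N, g.ker
  have hK1 : K1.index ≠ 0 := by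
    refine Subgroup.index_iInf_ne_zero ?_
    intro g
    rw [Subgroup.index_ker]
    exact Nat.card_pos.ne'
  have hK1N : ∀ f : FreeGroup ι →* G, K1.map f ≤ N := by
    intro f
    rintro _ ⟨x, hx, rfl⟩
    have h1 : x ∈ ((QuotientGroup.mk' N).comp f).ker := (Subgroup.mem_iInf.mp hx) _
    exact (QuotientGroup.eq_one_iff _).mp h1
  have hlcs : K1.lowerCentralSeries c ≤ ver (FreeGroup ι) G := by
    refine le_iInf fun f => ?_
    intro x hx
    have h1 : f x ∈ (K1.lowerCentralSeries c).map f := ⟨x, hx, rfl⟩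
    rw [Subgroup.map_lowerCentralSeries] at h1
    have h2 : f x ∈ N.lowerCentralSeries c := Subgroup.lowerCentralSeries_mono c (hK1N f) h1
    rw [hc', Subgroup.mem_bot] at h2
    exact h2
  refine ⟨K1.map (QuotientGroup.mk' _), ?_, ?_⟩
  · apply Subgroup.isNilpotent_of_lowerCentralSeries_eq_bot (n := c)
    rw [← Subgroup.map_lowerCentralSeries, eq_bot_iff]
    rintro _ ⟨x, hx, rfl⟩
    rw [Subgroup.mem_bot]
    exact (QuotientGroup.eq_one_iff x).mpr (hlcs hx)
  · constructor
    intro h0
    have h1 := Subgroup.index_map_dvd K1 (QuotientGroup.mk'_surjective (ver (FreeGroup ι) G))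
    rw [h0, Nat.zero_dvd] at h1
    exact hK1 h1

theorem ver_le_ker {ι G H : Type*} [Group G] [Group H] {s : ℕ → ι → G} {t : ι → H}
    (hlim : MarkedLim s t) : ver (FreeGroup ι) G ≤ (FreeGroup.lift t).ker := by
  intro w hw
  obtain ⟨n, hn⟩ := (hlim w).exists
  exact hn.mp ((Subgroup.mem_iInf.mp hw) (FreeGroup.lift (s n)))

/-- The limit of markings of a virtually nilpotent group eventually surjects onto it. -/
theorem eventually_ker_le {ι G H : Type*} [Finite ι] [Group G] [Group H]
    (hG : Group.IsVirtuallyNilpotent G) {s : ℕ → ι → G} {t : ι → H}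
    (hlim : MarkedLim s t) :
    ∀ᶠ n in atTop, (FreeGroup.lift t).ker ≤ (FreeGroup.lift (s n)).ker := by
  have hV := ver_vn (ι := ι) hG
  have hNo := noethG_of_vn _ hV
  obtain ⟨T, hT, hle⟩ := exists_lifts (QuotientGroup.mk' (ver (FreeGroup ι) G))
    (FreeGroup.lift t).ker (hNo _)
  rw [QuotientGroup.ker_mk'] at hle
  have h1 : ∀ᶠ n in atTop, ∀ w ∈ T, FreeGroup.lift (s n) w = 1 := by
    rw [eventually_all_finset]
    intro w hw
    filter_upwards [hlim w] with n hn
    exact hn.mpr (hT hw)
  filter_upwards [h1] with n hn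
  refine hle.trans (sup_le ?_ ?_)
  · rw [Subgroup.closure_le]
    intro w hw
    exact hn w hw
  · exact iInf_le _ (FreeGroup.lift (s n))

theorem vn_up {G H : Type*} [Group G] [Group H] (hG : Group.IsVirtuallyNilpotent G)
    (h : Preceq G H) : Group.IsVirtuallyNilpotent H := by
  obtain ⟨k, t, s, ht, hs, hlim⟩ := h
  refine vn_of_surjective (ver_vn (ι := Fin k) hG)
    (QuotientGroup.lift _ (FreeGroup.lift t) (fun w hw => ver_le_ker hlim hw)) ?_
  intro y
  obtain ⟨w, hw⟩ := ht.lift_surj y
  exact ⟨(w : FreeGroup (Fin k) ⧸ ver (FreeGroup (Fin k)) G), hw⟩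

/-- Iterated left-normed commutators of elements of `X`. -/
def itc {G : Type*} [Group G] (X : Set G) : ℕ → Set G
  | 0 => X
  | n + 1 => {z | ∃ w ∈ itc X n, ∃ x ∈ X, ⁅w, x⁆ = z}

theorem itc_finite {G : Type*} [Group G] {X : Set G} (hX : X.Finite) (n : ℕ) :
    (itc X n).Finite := by
  induction n with
  | zero => exact hX
  | succ n ih => exact Set.Finite.image2 (fun w x => ⁅w, x⁆) ih hX

theorem itc_map {G Q : Type*} [Group G] [Group Q] (f : G →* Q) (X : Set G) (n : ℕ) :
    itc (f '' X) n = f '' itc X n := by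
  induction n with
  | zero => rfl
  | succ n ih =>
    ext z
    constructor
    · rintro ⟨w, hw, x, ⟨x', hx', rfl⟩, rfl⟩
      rw [ih] at hw
      obtain ⟨w', hw', rfl⟩ := hw
      exact ⟨⁅w', x'⁆, ⟨w', hw', x', hx', rfl⟩, map_commutatorElement f w' x'⟩
    · rintro ⟨_, ⟨w', hw', x', hx', rfl⟩, rfl⟩
      refine ⟨f w', ?_, f x', ⟨x', hx', rfl⟩, (map_commutatorElement f w' x').symm⟩
      rw [ih]; exact ⟨w', hw', rfl⟩

theorem itc_lcs {G : Type*} [Group G] (X : Set G) (n : ℕ) :
    itc X n ⊆ ((⊤ : Subgroup G).lowerCentralSeries n : Set G) := by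
  induction n with
  | zero => intro x _; exact Subgroup.mem_top x
  | succ n ih =>
    rintro z ⟨w, hw, x, hx, rfl⟩
    rw [Subgroup.lowerCentralSeries_succ]
    exact Subgroup.commutator_mem_commutator (ih hw) (Subgroup.mem_top x)

theorem nilpotent_of_itc : ∀ (c : ℕ) (G : Type*) [Group G] (X : Set G),
    Subgroup.closure X = ⊤ → (∀ w ∈ itc X c, w = 1) → Group.IsNilpotent G := by
  intro c
  induction c with
  | zero =>
    intro G _ X hX h
    have h1 : Subgroup.closure X ≤ ⊥ := by
      rw [Subgroup.closure_le]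
      intro x hx
      exact h x hx
    rw [hX] at h1
    have h2 : Subsingleton G := by
      refine ⟨fun a b => ?_⟩
      have ha := Subgroup.mem_bot.mp (h1 (Subgroup.mem_top a))
      have hb := Subgroup.mem_bot.mp (h1 (Subgroup.mem_top b))
      rw [ha, hb]
    infer_instance
  | succ c ih =>
    intro G _ X hX h
    apply Group.of_quotient_center_nilpotent
    refine ih (G ⧸ Subgroup.center G) (QuotientGroup.mk' (Subgroup.center G) '' X) ?_ ?_
    · rw [← MonoidHom.map_closure, hX,
        Subgroup.map_top_of_surjective _ (QuotientGroup.mk'_surjective _)]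
    · intro w hw
      rw [itc_map] at hw
      obtain ⟨v, hv, rfl⟩ := hw
      refine (QuotientGroup.eq_one_iff v).mpr ?_
      have h1 : Subgroup.closure X ≤ Subgroup.centralizer {v} := by
        rw [Subgroup.closure_le]
        intro x hx
        rw [SetLike.mem_coe, Subgroup.mem_centralizer_singleton_iff]
        have h2 := h ⁅v, x⁆ ⟨v, hv, x, hx, rfl⟩
        exact (commutatorElement_eq_one_iff_mul_comm.mp h2).symm
      rw [hX] at h1
      rw [Subgroup.mem_center_iff]
      intro g
      exact Subgroup.mem_centralizer_singleton_iff.mp (h1 (Subgroup.mem_top g))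

theorem vn_down {G H : Type*} [Group G] [Group H] (hH : Group.IsVirtuallyNilpotent H)
    (h : Preceq G H) : Group.IsVirtuallyNilpotent G := by
  obtain ⟨k, t, s, ht, hs, hlim⟩ := h
  obtain ⟨N, hN, hfi⟩ := hH
  obtain ⟨c, hc⟩ := Subgroup.nilpotent_iff_lowerCentralSeries.mp hN
  let K : Subgroup (FreeGroup (Fin k)) := N.comap (FreeGroup.lift t)
  have hKfi : K.FiniteIndex := by
    constructor
    have h1 := Subgroup.index_comap_of_surjective N ht.lift_surj
    change (N.comap (FreeGroup.lift t)).index ≠ 0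
    rw [h1]; exact hfi.index_ne_zero
  have hKfg : Group.FG K := inferInstance
  obtain ⟨S, hS⟩ := Group.fg_def.mp hKfg
  let a : K →* N := (FreeGroup.lift t).subgroupComap N
  have ha : ∀ x : K, ((a x : N) : H) = FreeGroup.lift t (x : FreeGroup (Fin k)) := fun x => rfl
  have h1 : ∀ w ∈ itc (S : Set K) c, FreeGroup.lift t (w : FreeGroup (Fin k)) = 1 := by
    intro w hw
    have h2 : a w ∈ (⊤ : Subgroup N).lowerCentralSeries c := by
      have h3 : ((⊤ : Subgroup K).lowerCentralSeries c).map a ≤
          (⊤ : Subgroup N).lowerCentralSeries c := by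
        rw [Subgroup.map_lowerCentralSeries]
        exact Subgroup.lowerCentralSeries_mono c le_top
      exact h3 ⟨w, itc_lcs _ _ hw, rfl⟩
    rw [hc, Subgroup.mem_bot] at h2
    rw [← ha, h2]; rfl
  have h2 : ∀ᶠ n in atTop, ∀ w ∈ itc (S : Set K) c,
      FreeGroup.lift (s n) (w : FreeGroup (Fin k)) = 1 := by
    rw [Set.Finite.eventually_all (itc_finite S.finite_toSet c)]
    intro w hw
    filter_upwards [hlim w] with n hn
    exact hn.mpr (h1 w hw)
  obtain ⟨n, hn⟩ := h2.exists
  let b : K →* G := (FreeGroup.lift (s n)).comp K.subtype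
  refine ⟨b.range, ?_, ?_⟩
  · refine nilpotent_of_itc c b.range (b.rangeRestrict '' (S : Set K)) ?_ ?_
    · rw [← MonoidHom.map_closure, hS,
        Subgroup.map_top_of_surjective _ b.rangeRestrict_surjective]
    · intro w hw
      rw [itc_map] at hw
      obtain ⟨v, hv, rfl⟩ := hw
      exact Subtype.ext (hn v hv)
  · constructor
    have h3 : b.range = K.map (FreeGroup.lift (s n)) := by
      rw [MonoidHom.range_comp, Subgroup.range_subtype]
    rw [h3]
    intro h0
    have h4 := Subgroup.index_map_dvd K (hs n).lift_surj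
    rw [h0, Nat.zero_dvd] at h4
    exact hKfi.index_ne_zero h4

end Pool.Agent.MP81bbc5
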