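import Mathlib

/-! Finitely generated virtually nilpotent groups are noetherian and have good power subgroups. -/

set_option autoImplicit false

namespace Pool.Agent.MP81bbc5

open scoped commutatorElement

/-- Every subgroup is finitely generated. -/
def NoethG (G : Type*) [Group G] : Prop := ∀ K : Subgroup G, K.FG

theorem exists_lifts {G Q : Type*} [Group G] [Group Q] (f : G →* Q) (K : Subgroup G)
    (h : (K.map f).FG) : ∃ T : Finset G, (T : Set G) ⊆ K ∧ K ≤ Subgroup.closure (T : Set G) ⊔ f.ker := by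
  classical
  obtain ⟨S, hS⟩ := h
  have hl : ∀ s ∈ S, ∃ x ∈ K, f x = s := by
    intro s hs
    have : s ∈ K.map f := by rw [← hS]; exact Subgroup.subset_closure hs
    exact this
  choose! g hg using hl
  refine ⟨S.image g, ?_, ?_⟩
  · intro x hx
    simp only [Finset.coe_image] at hx
    obtain ⟨s, hs, rfl⟩ := hx
    exact (hg s hs).1
  · intro x hx
    have h1 : f x ∈ (Subgroup.closure ((S.image g : Finset G) : Set G)).map f := by
      rw [MonoidHom.map_closure]
      have h2 : f x ∈ K.map f := ⟨x, hx, rfl⟩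
      rw [← hS] at h2
      refine Subgroup.closure_mono ?_ h2
      intro s hs
      exact ⟨g s, by simpa using ⟨s, hs, rfl⟩, (hg s hs).2⟩
    obtain ⟨y, hy, hyx⟩ := h1
    have h3 : y⁻¹ * x ∈ f.ker := by
      rw [MonoidHom.mem_ker, map_mul, map_inv, hyx, inv_mul_cancel]
    have h4 : x = y * (y⁻¹ * x) := by group
    rw [h4]
    exact mul_mem (Subgroup.mem_sup_left hy) (Subgroup.mem_sup_right h3)

theorem fg_map {G Q : Type*} [Group G] [Group Q] (f : G →* Q) {K : Subgroup G} (h : K.FG) :
    (K.map f).FG := by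
  classical
  obtain ⟨S, hS⟩ := h
  refine ⟨S.image f, ?_⟩
  rw [Finset.coe_image, ← MonoidHom.map_closure, hS]

theorem fg_of_ext {G : Type*} [Group G] (A : Subgroup G) [A.Normal] (K : Subgroup G)
    (h1 : (K ⊓ A).FG) (h2 : (K.map (QuotientGroup.mk' A)).FG) : K.FG := by
  classical
  obtain ⟨T, hT, hK⟩ := exists_lifts _ _ h2
  obtain ⟨S, hS⟩ := h1
  refine ⟨S ∪ T, le_antisymm ?_ ?_⟩
  · rw [Subgroup.closure_le]
    intro x hx
    rw [Finset.coe_union] at hx
    rcases hx with hx | hx
    · have : x ∈ K ⊓ A := by rw [← hS]; exact Subgroup.subset_closure hx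
      exact this.1
    · exact hT hx
  · intro x hx
    have h3 := hK hx
    rw [QuotientGroup.ker_mk'] at h3
    rw [Subgroup.mem_sup_of_normal_right] at h3
    obtain ⟨y, hy, a, ha, rfl⟩ := h3
    have hyK : y ∈ K := by
      have : Subgroup.closure (T : Set G) ≤ K := (Subgroup.closure_le K).mpr hT
      exact this hy
    have haK : a ∈ K ⊓ A := by
      refine ⟨?_, ha⟩
      have : a = y⁻¹ * (y * a) := by group
      rw [this]; exact K.mul_mem (K.inv_mem hyK) hx
    rw [← hS] at haK
    rw [Finset.coe_union]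
    exact mul_mem (Subgroup.closure_mono Set.subset_union_right hy)
      (Subgroup.closure_mono Set.subset_union_left haK)

theorem noethG_of_ext {G : Type*} [Group G] (A : Subgroup G) [A.Normal]
    (hA : ∀ K : Subgroup G, K ≤ A → K.FG) (hQ : NoethG (G ⧸ A)) : NoethG G :=
  fun K => fg_of_ext A K (hA _ inf_le_right) (hQ _)

theorem comm_sub_fg {G : Type*} [Group G] (A : Subgroup G) (hA : A.FG)
    (hc : ∀ x ∈ A, ∀ y ∈ A, x * y = y * x) (K : Subgroup G) (hK : K ≤ A) : K.FG := by
  let _ : CommGroup A :=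
    { (inferInstance : Group A) with mul_comm := fun a b => Subtype.ext (hc a a.2 b b.2) }
  have h1 : Group.FG A := (Group.fg_iff_subgroup_fg A).mpr hA
  have h2 : AddGroup.FG (Additive A) := GroupFG.iff_add_fg.mp h1
  have h3 : Module.Finite ℤ (Additive A) := Module.Finite.iff_addGroup_fg.mpr h2
  have h4 : IsNoetherian ℤ (Additive A) := inferInstance
  have h5 : (K.subgroupOf A).FG := by
    rw [Subgroup.fg_iff_add_fg]
    have h6 := h4.noetherian (AddSubgroup.toIntSubmodule (K.subgroupOf A).toAddSubgroup)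
    rw [Submodule.fg_iff_addSubgroup_fg] at h6
    exact h6
  have h7 : (K.subgroupOf A).map A.subtype = K := by
    rw [Subgroup.subgroupOf_map_subtype, inf_eq_left.mpr hK]
  rw [← h7]
  exact fg_map _ h5

theorem comm_mem_of_gens {G : Type*} [Group G] (P A B : Subgroup G) (T X : Set G)
    (hB : B ≤ Subgroup.center G) (hAc : A ≤ Subgroup.center G)
    (hP : P ≤ Subgroup.closure T ⊔ A) (hX : Subgroup.closure X = ⊤)
    (h : ∀ y ∈ T, ∀ x ∈ X, ⁅y, x⁆ ∈ B) : ⁅P, (⊤ : Subgroup G)⁆ ≤ B := by
  have hBn : B.Normal := by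
    constructor
    intro n hn g
    have := Subgroup.mem_center_iff.mp (hB hn) g
    rw [this, mul_inv_cancel_right]; exact hn
  have h1 : ∀ y ∈ T, ∀ g : G, ⁅y, g⁆ ∈ B := by
    intro y hy g
    have hg : g ∈ Subgroup.closure X := by rw [hX]; trivial
    induction hg using Subgroup.closure_induction with
    | mem x hx => exact h y hy x hx
    | one => simp
    | mul a b _ _ ha hb =>
      have : ⁅y, a * b⁆ = ⁅y, a⁆ * (a * ⁅y, b⁆ * a⁻¹) := by
        simp only [commutatorElement_def]; group
      rw [this]; exact mul_mem ha (hBn.conj_mem _ hb a)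
    | inv a _ ha =>
      have : ⁅y, a⁻¹⁆ = a⁻¹ * ⁅y, a⁆⁻¹ * a⁻¹⁻¹ := by
        simp only [commutatorElement_def]; group
      rw [this]; exact hBn.conj_mem _ (inv_mem ha) _
  have h2 : ∀ p ∈ Subgroup.closure T ⊔ A, ∀ g : G, ⁅p, g⁆ ∈ B := by
    intro p hp
    have hp2 : p ∈ Subgroup.closure (T ∪ A) := by
      rw [Subgroup.closure_union, Subgroup.closure_eq]; exact hp
    induction hp2 using Subgroup.closure_induction with
    | mem x hx =>
      intro g
      rcases hx with hx | hx
      · exact h1 x hx g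
      · have : ⁅x, g⁆ = 1 := by
          rw [commutatorElement_eq_one_iff_mul_comm]
          exact (Subgroup.mem_center_iff.mp (hAc hx) g).symm
        rw [this]; exact one_mem _
    | one => intro g; simp
    | mul a b ha' hb' ha hb =>
      intro g
      have ha2 := ha (by rw [Subgroup.closure_union, Subgroup.closure_eq] at ha'; exact ha') g
      have hb2 := hb (by rw [Subgroup.closure_union, Subgroup.closure_eq] at hb'; exact hb') g
      have : ⁅a * b, g⁆ = (a * ⁅b, g⁆ * a⁻¹) * ⁅a, g⁆ := by
        simp only [commutatorElement_def]; group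
      rw [this]; exact mul_mem (hBn.conj_mem _ hb2 a) ha2
    | inv a ha' ha =>
      intro g
      have ha2 := ha (by rw [Subgroup.closure_union, Subgroup.closure_eq] at ha'; exact ha') g
      have : ⁅a⁻¹, g⁆ = a⁻¹ * ⁅a, g⁆⁻¹ * a⁻¹⁻¹ := by
        simp only [commutatorElement_def]; group
      rw [this]; exact hBn.conj_mem _ (inv_mem ha2) _
  rw [Subgroup.commutator_le]
  intro p hp g _
  exact h2 p (hP hp) g

theorem lcs_le_center {G : Type*} [Group G] {n : ℕ}
    (h : (⊤ : Subgroup G).lowerCentralSeries (n + 1) = ⊥) :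
    (⊤ : Subgroup G).lowerCentralSeries n ≤ Subgroup.center G := by
  intro x hx
  rw [Subgroup.mem_center_iff]
  intro g
  have h1 : ⁅x, g⁆ ∈ (⊤ : Subgroup G).lowerCentralSeries (n + 1) := by
    rw [Subgroup.lowerCentralSeries_succ]
    exact Subgroup.commutator_mem_commutator hx (Subgroup.mem_top g)
  rw [h, Subgroup.mem_bot] at h1
  exact (commutatorElement_eq_one_iff_mul_comm.mp h1).symm

theorem lcs_quot {G : Type*} [Group G] {n : ℕ} (A : Subgroup G) [A.Normal]
    (hA : (⊤ : Subgroup G).lowerCentralSeries n ≤ A) :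
    (⊤ : Subgroup (G ⧸ A)).lowerCentralSeries n = ⊥ := by
  have h1 := Subgroup.map_lowerCentralSeries (⊤ : Subgroup G) (QuotientGroup.mk' A) n
  rw [Subgroup.map_top_of_surjective _ (QuotientGroup.mk'_surjective A)] at h1
  rw [← h1, eq_bot_iff]
  rintro _ ⟨x, hx, rfl⟩
  rw [Subgroup.mem_bot]
  exact (QuotientGroup.eq_one_iff x).mpr (hA hx)

theorem last_fg {G : Type*} [Group G] (hG : Group.FG G) {n : ℕ}
    (h : (⊤ : Subgroup G).lowerCentralSeries (n + 1) = ⊥)
    (hQ : NoethG (G ⧸ (⊤ : Subgroup G).lowerCentralSeries n)) :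
    ((⊤ : Subgroup G).lowerCentralSeries n).FG := by
  classical
  have hc := lcs_le_center h
  cases n with
  | zero =>
    rw [Subgroup.lowerCentralSeries_zero]
    exact Group.fg_def.mp hG
  | succ m =>
    set A := (⊤ : Subgroup G).lowerCentralSeries (m + 1) with hAdef
    obtain ⟨T, hT, hP⟩ := exists_lifts (QuotientGroup.mk' A)
      ((⊤ : Subgroup G).lowerCentralSeries m) (hQ _)
    rw [QuotientGroup.ker_mk'] at hP
    obtain ⟨X, hX⟩ := Group.fg_def.mp hG
    refine ⟨(T ×ˢ X).image (fun p => ⁅p.1, p.2⁆), ?_⟩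
    have hTA : ∀ y ∈ T, ∀ x : G, ⁅y, x⁆ ∈ A := by
      intro y hy x
      rw [hAdef, Subgroup.lowerCentralSeries_succ]
      exact Subgroup.commutator_mem_commutator (hT hy) (Subgroup.mem_top x)
    apply le_antisymm
    · rw [Subgroup.closure_le]
      intro z hz
      rw [Finset.coe_image] at hz
      obtain ⟨⟨y, x⟩, hyx, rfl⟩ := hz
      rw [Finset.mem_coe, Finset.mem_product] at hyx
      exact hTA y hyx.1 x
    · have h1 := comm_mem_of_gens ((⊤ : Subgroup G).lowerCentralSeries m) A
        (Subgroup.closure (((T ×ˢ X).image (fun p => ⁅p.1, p.2⁆) : Finset G) : Set G))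
        (T : Set G) (X : Set G) ?_ hc hP hX ?_
      · rw [hAdef, Subgroup.lowerCentralSeries_succ]; exact h1
      · rw [Subgroup.closure_le]
        intro z hz
        rw [Finset.coe_image] at hz
        obtain ⟨⟨y, x⟩, hyx, rfl⟩ := hz
        rw [Finset.mem_coe, Finset.mem_product] at hyx
        exact hc (hTA y hyx.1 x)
      · intro y hy x hx
        refine Subgroup.subset_closure ?_
        rw [Finset.coe_image]
        exact ⟨(y, x), by rw [Finset.mem_coe, Finset.mem_product]; exact ⟨hy, hx⟩, rfl⟩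

theorem noethG_nilp : ∀ (n : ℕ) (G : Type*) [Group G], Group.FG G →
    (⊤ : Subgroup G).lowerCentralSeries n = ⊥ → NoethG G := by
  intro n
  induction n with
  | zero =>
    intro G _ _ h K
    rw [Subgroup.lowerCentralSeries_zero] at h
    have : K = ⊥ := by
      rw [eq_bot_iff, ← h]; exact le_top
    rw [this]
    exact ⟨∅, by simp⟩
  | succ n ih =>
    intro G _ hG h
    have hc := lcs_le_center h
    have hQ : NoethG (G ⧸ (⊤ : Subgroup G).lowerCentralSeries n) :=
      ih _ inferInstance (lcs_quot _ le_rfl)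
    have hA := last_fg hG h hQ
    refine noethG_of_ext ((⊤ : Subgroup G).lowerCentralSeries n) ?_ hQ
    intro K hK
    refine comm_sub_fg _ hA ?_ K hK
    intro x hx y _
    exact (Subgroup.mem_center_iff.mp (hc hx) y).symm

theorem noethG_of_nilpotent (G : Type*) [Group G] [hG : Group.FG G] [h : Group.IsNilpotent G] :
    NoethG G := by
  obtain ⟨n, hn⟩ := Subgroup.nilpotent_iff_lowerCentralSeries.mp h
  exact noethG_nilp n G hG hn

end Pool.Agent.MP81bbc5
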