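import Mathlib

/-! Polynomial sequences in nilpotent groups. -/

set_option autoImplicit false

namespace Pool.Agent.MP81bbc5

open scoped commutatorElement

section Filtration

variable {N : Type*} [Group N]

/-- A slow descending filtration: the lower central series at index `log₂ i`. -/
def fil (N : Type*) [Group N] (i : ℕ) : Subgroup N :=
  (⊤ : Subgroup N).lowerCentralSeries (Nat.log 2 i)

theorem fil_zero : fil N 0 = ⊤ := by simp [fil]

theorem fil_one : fil N 1 = ⊤ := by simp [fil]

theorem fil_anti {i j : ℕ} (h : i ≤ j) : fil N j ≤ fil N i :=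
  Subgroup.lowerCentralSeries_antitone (⊤ : Subgroup N) (Nat.log_mono_right h)

theorem fil_comm {i j : ℕ} {x y : N} (hx : x ∈ fil N i) (hy : y ∈ fil N j) :
    ⁅x, y⁆ ∈ fil N (i + j) := by
  have key : ∀ (i j : ℕ) (x y : N), j ≤ i → x ∈ fil N i → ⁅x, y⁆ ∈ fil N (i + j) := by
    intro i j x y hij hx
    have h1 : ⁅x, y⁆ ∈ (⊤ : Subgroup N).lowerCentralSeries (Nat.log 2 i + 1) := by
      rw [Subgroup.lowerCentralSeries_succ]
      exact Subgroup.commutator_mem_commutator hx (Subgroup.mem_top y)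
    rcases Nat.eq_zero_or_pos i with rfl | hi
    · have : j = 0 := by omega
      subst this
      rw [fil_zero]; exact Subgroup.mem_top _
    refine Subgroup.lowerCentralSeries_antitone (⊤ : Subgroup N) ?_ h1
    have h2 : Nat.log 2 (i + j) ≤ Nat.log 2 (i * 2) := Nat.log_mono_right (by omega)
    rwa [Nat.log_mul_base (by norm_num) (by omega)] at h2
  rcases le_total j i with h | h
  · exact key i j x y h hx
  · have := key j i y x h hy
    rw [← commutatorElement_inv, add_comm]
    exact inv_mem this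

/-- The multiplicative difference of a sequence. -/
def dl (p : ℕ → N) : ℕ → N := fun t => p (t + 1) * (p t)⁻¹

/-- Sequences whose first `K` differences lie in the filtration, from level `d`. -/
def PolyK : ℕ → ℕ → (ℕ → N) → Prop
  | 0, d, p => ∀ t, p t ∈ fil N d
  | K + 1, d, p => (∀ t, p t ∈ fil N d) ∧ PolyK K (d + 1) (dl p)

theorem PolyK.val {K d : ℕ} {p : ℕ → N} (h : PolyK K d p) (t : ℕ) : p t ∈ fil N d := by
  cases K with
  | zero => exact h t
  | succ K => exact h.1 t

theorem PolyK.mono {K : ℕ} : ∀ {d d' : ℕ} {p : ℕ → N}, d ≤ d' → PolyK K d' p → PolyK K d p := by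
  induction K with
  | zero => intro d d' p hd h t; exact fil_anti hd (h t)
  | succ K ih =>
    intro d d' p hd h
    exact ⟨fun t => fil_anti hd (h.1 t), ih (by omega) h.2⟩

theorem PolyK.down {K : ℕ} : ∀ {d : ℕ} {p : ℕ → N}, PolyK (K + 1) d p → PolyK K d p := by
  induction K with
  | zero => intro d p h t; exact h.1 t
  | succ K ih => intro d p h; exact ⟨h.1, ih h.2⟩

theorem dl_one : dl (1 : ℕ → N) = 1 := by
  funext t; simp [dl]

theorem polyK_one (K : ℕ) : ∀ d : ℕ, PolyK K d (1 : ℕ → N) := by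
  induction K with
  | zero => intro d t; exact one_mem _
  | succ K ih => intro d; exact ⟨fun t => one_mem _, by rw [dl_one]; exact ih _⟩

theorem dl_mul (p q : ℕ → N) : dl (p * q) = dl p * ⁅p, dl q⁆ * dl q := by
  funext t
  simp only [dl, Pi.mul_apply, commutatorElement_def, Pi.inv_apply]
  group

theorem dl_inv (p : ℕ → N) : dl p⁻¹ = ⁅p⁻¹, (dl p)⁻¹⁆ * (dl p)⁻¹ := by
  funext t
  simp only [dl, Pi.mul_apply, commutatorElement_def, Pi.inv_apply]
  group

theorem dl_comm (p q : ℕ → N) : dl ⁅p, q⁆ =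
    (dl p * ⁅p, dl q⁆ * (dl p)⁻¹) * ⁅dl p * dl q, ⁅p, q⁆⁆ *
      (⁅p, q⁆ * (⁅dl p, dl q⁆ * (dl q * ⁅dl p, q⁆ * (dl q)⁻¹)) * ⁅p, q⁆⁻¹) := by
  funext t
  simp only [dl, Pi.mul_apply, commutatorElement_def, Pi.inv_apply]
  group

/-- Closure properties at stage `K`. -/
structure PK (N : Type*) [Group N] (K : ℕ) : Prop where
  mul : ∀ {d : ℕ} {p q : ℕ → N}, PolyK K d p → PolyK K d q → PolyK K d (p * q)
  inv : ∀ {d : ℕ} {p : ℕ → N}, PolyK K d p → PolyK K d p⁻¹
  comm : ∀ {i j : ℕ} {p q : ℕ → N}, PolyK K i p → PolyK K j q → PolyK K (i + j) ⁅p, q⁆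

theorem PK.conj {K : ℕ} (h : PK N K) {d : ℕ} {g p : ℕ → N} (hg : PolyK K 0 g)
    (hp : PolyK K d p) : PolyK K d (g * p * g⁻¹) := by
  have h1 : g * p * g⁻¹ = ⁅g, p⁆ * p := by
    rw [commutatorElement_def]; group
  rw [h1]
  have h2 := h.comm hg hp
  rw [zero_add] at h2
  exact h.mul h2 hp

theorem pk (N : Type*) [Group N] (K : ℕ) : PK N K := by
  induction K with
  | zero =>
    refine ⟨?_, ?_, ?_⟩
    · intro d p q hp hq t; exact mul_mem (hp t) (hq t)
    · intro d p hp t; exact inv_mem (hp t)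
    · intro i j p q hp hq t
      have : (⁅p, q⁆ : ℕ → N) t = ⁅p t, q t⁆ := rfl
      rw [this]
      exact fil_comm (hp t) (hq t)
  | succ K ih =>
    have mulS : ∀ {d : ℕ} {p q : ℕ → N}, PolyK (K + 1) d p → PolyK (K + 1) d q →
        PolyK (K + 1) d (p * q) := by
      intro d p q hp hq
      refine ⟨fun t => mul_mem (hp.1 t) (hq.1 t), ?_⟩
      rw [dl_mul]
      refine ih.mul (ih.mul hp.2 ?_) hq.2
      exact PolyK.mono (by omega) (ih.comm hp.down hq.2)
    refine ⟨mulS, ?_, ?_⟩
    · intro d p hp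
      refine ⟨fun t => inv_mem (hp.1 t), ?_⟩
      rw [dl_inv]
      have h1 := ih.inv hp.2
      have h2 := ih.inv hp.down
      exact ih.mul (PolyK.mono (by omega) (ih.comm h2 h1)) h1
    · intro i j p q hp hq
      refine ⟨?_, ?_⟩
      · intro t
        have : (⁅p, q⁆ : ℕ → N) t = ⁅p t, q t⁆ := rfl
        rw [this]
        exact fil_comm (hp.1 t) (hq.1 t)
      rw [dl_comm]
      have a := hp.2
      have b := hp.down
      have c := hq.2
      have d := hq.down
      have z := ih.comm b d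
      have a0 : PolyK K 0 (dl p) := PolyK.mono (by omega) a
      have c0 : PolyK K 0 (dl q) := PolyK.mono (by omega) c
      have z0 : PolyK K 0 ⁅p, q⁆ := PolyK.mono (by omega) z
      have a1 : PolyK K 1 (dl p) := PolyK.mono (by omega) a
      have c1 : PolyK K 1 (dl q) := PolyK.mono (by omega) c
      refine ih.mul (ih.mul ?_ ?_) ?_
      · exact ih.conj a0 (PolyK.mono (by omega) (ih.comm b c))
      · exact PolyK.mono (by omega) (ih.comm (ih.mul a1 c1) z)
      · refine ih.conj z0 (ih.mul ?_ ?_)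
        · exact PolyK.mono (by omega) (ih.comm a c)
        · exact ih.conj c0 (PolyK.mono (by omega) (ih.comm a d))

/-- The group of sequences generated by constants and powers. -/
def polySeq (N : Type*) [Group N] : Subgroup (ℕ → N) :=
  Subgroup.closure ({p | ∃ a : N, p = fun _ => a} ∪ {p | ∃ b : N, p = fun t => b ^ t})

theorem const_mem (a : N) : (fun _ => a) ∈ polySeq N :=
  Subgroup.subset_closure (Or.inl ⟨a, rfl⟩)

theorem pow_mem_polySeq (b : N) : (fun t => b ^ t) ∈ polySeq N :=
  Subgroup.subset_closure (Or.inr ⟨b, rfl⟩)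

theorem dl_const (a : N) : dl (fun _ : ℕ => a) = 1 := by
  funext t; simp [dl]

theorem dl_pow (b : N) : dl (fun t : ℕ => b ^ t) = fun _ => b := by
  funext t
  simp only [dl, pow_succ']
  group

theorem polyK_const (K : ℕ) (a : N) {d : ℕ} (hd : d ≤ 1) : PolyK K d (fun _ : ℕ => a) := by
  have ha : a ∈ fil N d := fil_anti hd (by rw [fil_one]; exact Subgroup.mem_top _)
  cases K with
  | zero => intro t; exact ha
  | succ K => exact ⟨fun _ => ha, by rw [dl_const]; exact polyK_one _ _⟩

theorem polySeq_polyK {p : ℕ → N} (hp : p ∈ polySeq N) (K : ℕ) : PolyK K 0 p := by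
  induction hp using Subgroup.closure_induction with
  | mem x hx =>
    rcases hx with ⟨a, rfl⟩ | ⟨b, rfl⟩
    · exact polyK_const K a (by norm_num)
    · cases K with
      | zero => intro t; rw [fil_zero]; exact Subgroup.mem_top _
      | succ K =>
        refine ⟨fun t => by rw [fil_zero]; exact Subgroup.mem_top _, ?_⟩
        rw [dl_pow]
        exact polyK_const K b (by norm_num)
  | one => exact polyK_one K 0
  | mul x y _ _ hx hy => exact (pk N K).mul hx hy
  | inv x _ hx => exact (pk N K).inv hx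

theorem PolyK.iter {K : ℕ} : ∀ {d : ℕ} {p : ℕ → N}, PolyK K d p →
    ∀ t, (dl^[K] p) t ∈ fil N (d + K) := by
  induction K with
  | zero => intro d p h t; exact h t
  | succ K ih =>
    intro d p h t
    rw [Function.iterate_succ_apply]
    have := ih h.2 t
    rwa [add_assoc, add_comm 1 K] at this

theorem exists_iter_eq_one [Group.IsNilpotent N] :
    ∃ K, ∀ p ∈ polySeq N, dl^[K] p = 1 := by
  obtain ⟨c, hc⟩ := Subgroup.nilpotent_iff_lowerCentralSeries.mp (inferInstance : Group.IsNilpotent N)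
  refine ⟨2 ^ c, fun p hp => ?_⟩
  funext t
  have h := (polySeq_polyK hp (2 ^ c)).iter t
  rw [zero_add] at h
  have h2 : fil N (2 ^ c) = ⊥ := by
    rw [fil, Nat.log_pow (by norm_num)]
    exact hc
  rw [h2] at h
  exact Subgroup.mem_bot.mp h

end Filtration

end Pool.Agent.MP81bbc5
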