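import Pool.Agent.Lib.MP_81bbc5_al.Noeth

/-! Power subgroups of finitely generated virtually nilpotent groups. -/

set_option autoImplicit false

namespace Pool.Agent.MP81bbc5

open scoped commutatorElement

/-- The subgroup generated by the `e`-th powers of the elements of `K`. -/
def vp {G : Type*} [Group G] (K : Subgroup G) (e : ℕ) : Subgroup G :=
  Subgroup.closure ((fun x => x ^ e) '' (K : Set G))

theorem pow_mem_vp {G : Type*} [Group G] {K : Subgroup G} {x : G} (hx : x ∈ K) (e : ℕ) :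
    x ^ e ∈ vp K e := Subgroup.subset_closure ⟨x, hx, rfl⟩

theorem vp_le {G : Type*} [Group G] {K L : Subgroup G} {e : ℕ} (h : ∀ x ∈ K, x ^ e ∈ L) :
    vp K e ≤ L := by
  rw [vp, Subgroup.closure_le]
  rintro _ ⟨x, hx, rfl⟩
  exact h x hx

theorem vp_le_self {G : Type*} [Group G] (K : Subgroup G) (e : ℕ) : vp K e ≤ K :=
  vp_le fun _ hx => pow_mem hx e

theorem vp_mono {G : Type*} [Group G] {K L : Subgroup G} (h : K ≤ L) (e : ℕ) : vp K e ≤ vp L e :=
  vp_le fun _ hx => pow_mem_vp (h hx) e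

theorem vp_dvd {G : Type*} [Group G] (K : Subgroup G) {e e' : ℕ} (h : e ∣ e') :
    vp K e' ≤ vp K e := by
  obtain ⟨k, rfl⟩ := h
  refine vp_le fun x hx => ?_
  rw [mul_comm, pow_mul]
  exact pow_mem_vp (pow_mem hx k) e

theorem map_vp {G Q : Type*} [Group G] [Group Q] (f : G →* Q) (K : Subgroup G) (e : ℕ) :
    (vp K e).map f = vp (K.map f) e := by
  rw [vp, vp, MonoidHom.map_closure]
  congr 1
  ext y
  constructor
  · rintro ⟨_, ⟨x, hx, rfl⟩, rfl⟩
    exact ⟨f x, ⟨x, hx, rfl⟩, by simp⟩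
  · rintro ⟨_, ⟨x, hx, rfl⟩, rfl⟩
    exact ⟨x ^ e, ⟨x, hx, rfl⟩, by simp⟩

theorem vp_normal {G : Type*} [Group G] (K : Subgroup G) [hK : K.Normal] (e : ℕ) :
    (vp K e).Normal := by
  constructor
  intro n hn g
  have h1 : (vp K e).map (MulAut.conj g).toMonoidHom = vp K e := by
    rw [map_vp]
    congr 1
    exact Subgroup.Normal.map_conj_eq K g
  rw [← h1]
  exact ⟨n, hn, by simp⟩

theorem vp_comm_index {G : Type*} [Group G] (A : Subgroup G) (hA : A.FG)
    (hc : ∀ x ∈ A, ∀ y ∈ A, x * y = y * x) {e : ℕ} (he : e ≠ 0) : (vp A e).relIndex A ≠ 0 := by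
  let _ : CommGroup A :=
    { (inferInstance : Group A) with mul_comm := fun a b => Subtype.ext (hc a a.2 b b.2) }
  have h1 : Group.FG A := (Group.fg_iff_subgroup_fg A).mpr hA
  rw [Subgroup.relIndex]
  have h2 : Finite (A ⧸ (vp A e).subgroupOf A) := by
    have h3 : Group.FG (A ⧸ (vp A e).subgroupOf A) := inferInstance
    refine CommGroup.finite_of_fg_isMulTorsion (G := A ⧸ (vp A e).subgroupOf A) ?_
    intro g
    obtain ⟨x, rfl⟩ := QuotientGroup.mk_surjective g
    rw [isOfFinOrder_iff_pow_eq_one]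
    refine ⟨e, Nat.pos_of_ne_zero he, ?_⟩
    rw [← QuotientGroup.mk_pow, QuotientGroup.eq_one_iff, Subgroup.mem_subgroupOf]
    exact pow_mem_vp x.2 e
  exact Subgroup.index_ne_zero_of_finite

theorem vp_index : ∀ (n : ℕ) (G : Type*) [Group G], Group.FG G →
    (⊤ : Subgroup G).lowerCentralSeries n = ⊥ → ∀ {e : ℕ}, e ≠ 0 →
    (vp (⊤ : Subgroup G) e).index ≠ 0 := by
  intro n
  induction n with
  | zero =>
    intro G _ _ h e _
    rw [Subgroup.lowerCentralSeries_zero] at h
    have h1 : vp (⊤ : Subgroup G) e = ⊤ := by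
      rw [eq_top_iff, h]; exact bot_le
    rw [h1, Subgroup.index_top]; norm_num
  | succ n ih =>
    intro G _ hG h e he
    have hc := lcs_le_center h
    have hlq := lcs_quot ((⊤ : Subgroup G).lowerCentralSeries n) le_rfl
    have hQ : NoethG (G ⧸ (⊤ : Subgroup G).lowerCentralSeries n) :=
      noethG_nilp n _ inferInstance hlq
    have hA := last_fg hG h hQ
    set A := (⊤ : Subgroup G).lowerCentralSeries n with hAdef
    have h1 : (vp (⊤ : Subgroup (G ⧸ A)) e).index ≠ 0 := ih _ inferInstance hlq he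
    have h2 : (vp (⊤ : Subgroup G) e ⊔ A).index ≠ 0 := by
      have h3 : vp (⊤ : Subgroup G) e ⊔ A
          = (vp (⊤ : Subgroup (G ⧸ A)) e).comap (QuotientGroup.mk' A) := by
        have h4 := map_vp (QuotientGroup.mk' A) (⊤ : Subgroup G) e
        rw [Subgroup.map_top_of_surjective _ (QuotientGroup.mk'_surjective A)] at h4
        rw [← h4, Subgroup.comap_map_eq, QuotientGroup.ker_mk']
      rw [h3, Subgroup.index_comap_of_surjective _ (QuotientGroup.mk'_surjective A)]
      exact h1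
    have h5 : (vp (⊤ : Subgroup G) e).relIndex A ≠ 0 := by
      have h6 := vp_comm_index A hA
        (fun x hx y _ => (Subgroup.mem_center_iff.mp (hc hx) y).symm) he
      intro h7
      exact h6 (Subgroup.relIndex_eq_zero_of_le_left (vp_mono le_top e) h7)
    have h8 : (vp (⊤ : Subgroup G) e).Normal := vp_normal _ _
    have h9 := Subgroup.relIndex_mul_index (le_sup_left : vp (⊤ : Subgroup G) e ≤ vp ⊤ e ⊔ A)
    rw [← h9, Subgroup.relIndex_sup_left]
    exact mul_ne_zero h5 h2

theorem vp_index_nilpotent (G : Type*) [Group G] [hG : Group.FG G] [h : Group.IsNilpotent G]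
    {e : ℕ} (he : e ≠ 0) : (vp (⊤ : Subgroup G) e).index ≠ 0 := by
  obtain ⟨n, hn⟩ := Subgroup.nilpotent_iff_lowerCentralSeries.mp h
  exact vp_index n G hG hn he

/-- Torsion-free subgroups. -/
def TF {G : Type*} [Group G] (L : Subgroup G) : Prop :=
  ∀ x ∈ L, ∀ m : ℕ, m ≠ 0 → x ^ m = 1 → x = 1

theorem TF.mono {G : Type*} [Group G] {L L' : Subgroup G} (h : TF L) (hL : L' ≤ L) : TF L' :=
  fun x hx m hm hx1 => h x (hL hx) m hm hx1

theorem chain_fg {G : Type*} [Group G] (c : Set (Subgroup G)) (hc : IsChain (· ≤ ·) c)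
    (hne : c.Nonempty) (hfg : (sSup c).FG) : ∃ K ∈ c, sSup c ≤ K := by
  classical
  obtain ⟨F, hF⟩ := hfg
  have key : ∀ F' : Finset G, F' ⊆ F → ∃ K ∈ c, (F' : Set G) ⊆ K := by
    intro F'
    induction F' using Finset.induction_on with
    | empty => intro _; obtain ⟨K, hK⟩ := hne; exact ⟨K, hK, by simp⟩
    | insert a s _ ih =>
      intro hsub
      obtain ⟨K, hK, hsK⟩ := ih (fun x hx => hsub (Finset.mem_insert_of_mem hx))
      have ha : a ∈ sSup c := by
        rw [← hF]; exact Subgroup.subset_closure (hsub (Finset.mem_insert_self a s))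
      rw [Subgroup.mem_sSup_of_directedOn hne hc.directedOn] at ha
      obtain ⟨K', hK', haK'⟩ := ha
      rcases hc.total hK hK' with h | h
      · refine ⟨K', hK', ?_⟩
        intro x hx
        rw [Finset.coe_insert] at hx
        rcases hx with rfl | hx
        · exact haK'
        · exact h (hsK hx)
      · refine ⟨K, hK, ?_⟩
        intro x hx
        rw [Finset.coe_insert] at hx
        rcases hx with rfl | hx
        · exact h haK'
        · exact hsK hx
  obtain ⟨K, hK, hFK⟩ := key F (Finset.Subset.refl _)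
  refine ⟨K, hK, ?_⟩
  rw [← hF, Subgroup.closure_le]
  exact hFK

theorem exists_tf_vp (G : Type*) [Group G] [hG : Group.FG G] [hnil : Group.IsNilpotent G] :
    ∃ e : ℕ, e ≠ 0 ∧ TF (vp (⊤ : Subgroup G) e) := by
  classical
  have hN := noethG_of_nilpotent G
  let s : Set (Subgroup G) := {K | K.Normal ∧ ∃ e : ℕ, e ≠ 0 ∧ TF (vp K e)}
  obtain ⟨K, hKmax⟩ := zorn_le₀ s (by
    intro c hcs hc
    rcases c.eq_empty_or_nonempty with rfl | hne
    · refine ⟨⊥, ⟨inferInstance, 1, one_ne_zero, ?_⟩, by simp⟩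
      intro x hx m _ _
      have := vp_le_self _ _ hx
      simpa using this
    · obtain ⟨K, hK, hle⟩ := chain_fg c hc hne (hN _)
      exact ⟨K, hcs hK, fun z hz => (le_sSup hz).trans hle⟩)
  have hKs : K ∈ s := hKmax.prop
  have hKN : K.Normal := hKs.1
  obtain ⟨e0, he0, hTF⟩ := hKs.2
  by_cases hKtop : K = ⊤
  · subst hKtop; exact ⟨e0, he0, hTF⟩
  exfalso
  have hnt : Nontrivial (G ⧸ K) := by
    rw [← not_subsingleton_iff_nontrivial, QuotientGroup.subsingleton_iff]
    exact hKtop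
  have hcb := Group.IsNilpotent.center_ne_bot (G := G ⧸ K)
  obtain ⟨⟨z, hz⟩, hz1'⟩ := Subgroup.ne_bot_iff_exists_ne_one.mp hcb
  have hz1 : z ≠ 1 := fun h => hz1' (Subtype.ext h)
  obtain ⟨t, rfl⟩ := QuotientGroup.mk_surjective z
  have hzN : (Subgroup.zpowers ((t : G) : G ⧸ K)).Normal := by
    constructor
    intro n hn g
    obtain ⟨i, rfl⟩ := Subgroup.mem_zpowers_iff.mp hn
    have h1 : ((t : G) : G ⧸ K) ^ i ∈ Subgroup.center (G ⧸ K) := zpow_mem hz i
    rw [Subgroup.mem_center_iff.mp h1 g, mul_inv_cancel_right]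
    exact Subgroup.zpow_mem_zpowers _ _
  let K' : Subgroup G := (Subgroup.zpowers ((t : G) : G ⧸ K)).comap (QuotientGroup.mk' K)
  have hK'N : K'.Normal := hzN.comap _
  have hKK' : K ≤ K' := by
    intro x hx
    change QuotientGroup.mk' K x ∈ Subgroup.zpowers ((t : G) : G ⧸ K)
    have : QuotientGroup.mk' K x = 1 := (QuotientGroup.eq_one_iff x).mpr hx
    rw [this]; exact one_mem _
  have htK' : t ∈ K' := Subgroup.mem_zpowers ((t : G) : G ⧸ K)
  have htK : t ∉ K := fun h => hz1 ((QuotientGroup.eq_one_iff t).mpr h)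
  have hK's : K' ∉ s := by
    intro h
    exact htK (hKmax.le_of_ge h hKK' htK')
  apply hK's
  refine ⟨hK'N, ?_⟩
  have hmemK' : ∀ x ∈ K', ∃ i : ℤ, ((t : G) : G ⧸ K) ^ i = ((x : G) : G ⧸ K) := by
    intro x hx
    exact Subgroup.mem_zpowers_iff.mp hx
  by_cases hfin : ∃ j : ℕ, j ≠ 0 ∧ ((t : G) : G ⧸ K) ^ j = 1
  · obtain ⟨j, hj, hzj⟩ := hfin
    refine ⟨j * e0, mul_ne_zero hj he0, hTF.mono (vp_le ?_)⟩
    intro x hx
    rw [pow_mul]
    refine pow_mem_vp ?_ e0
    obtain ⟨i, hi⟩ := hmemK' x hx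
    rw [← QuotientGroup.eq_one_iff, QuotientGroup.mk_pow, ← hi, ← zpow_natCast, ← zpow_mul,
      mul_comm, zpow_mul, zpow_natCast, hzj, one_zpow]
  · push Not at hfin
    set L := vp K e0 with hL
    have hLN : L.Normal := vp_normal K e0
    have hKFG : Group.FG K := (Group.fg_iff_subgroup_fg K).mpr (hN K)
    have hrel : L.relIndex K ≠ 0 := by
      have h1 := vp_index_nilpotent K he0
      rw [Subgroup.relIndex]
      intro h2
      apply h1
      have h3 : vp (⊤ : Subgroup K) e0 ≤ L.subgroupOf K := by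
        refine vp_le ?_
        intro x _
        rw [Subgroup.mem_subgroupOf]
        exact pow_mem_vp x.2 e0
      have h4 := Subgroup.index_dvd_of_le h3
      rw [h2] at h4
      exact Nat.eq_zero_of_zero_dvd h4
    have hcard : Nat.card (K.map (QuotientGroup.mk' L)) ≠ 0 := by
      rw [← Subgroup.relIndex_ker, QuotientGroup.ker_mk']
      exact hrel
    have hfinK : Finite (K.map (QuotientGroup.mk' L)) := Nat.finite_of_card_ne_zero hcard
    have hKbN : (K.map (QuotientGroup.mk' L)).Normal :=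
      hKN.map _ (QuotientGroup.mk'_surjective L)
    have hfinAut : Finite (MulAut (K.map (QuotientGroup.mk' L))) :=
      Finite.of_injective (fun f => (f : K.map (QuotientGroup.mk' L) → K.map (QuotientGroup.mk' L)))
        DFunLike.coe_injective
    let q := orderOf (MulAut.conjNormal ((t : G) : G ⧸ L) : MulAut (K.map (QuotientGroup.mk' L)))
    have hq0 : q ≠ 0 := (orderOf_pos _).ne'
    have hq : ∀ k ∈ K.map (QuotientGroup.mk' L), Commute (((t : G) : G ⧸ L) ^ q) k := by
      intro k hk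
      have h1 : (MulAut.conjNormal (((t : G) : G ⧸ L) ^ q) : MulAut (K.map (QuotientGroup.mk' L)))
          = 1 := by
        rw [map_pow]; exact pow_orderOf_eq_one _
      have h2 := MulAut.conjNormal_apply (((t : G) : G ⧸ L) ^ q) (⟨k, hk⟩ : K.map (QuotientGroup.mk' L))
      rw [h1] at h2
      have h3 : k = ((t : G) : G ⧸ L) ^ q * k * (((t : G) : G ⧸ L) ^ q)⁻¹ := h2
      change ((t : G) : G ⧸ L) ^ q * k = k * ((t : G) : G ⧸ L) ^ q
      conv_rhs => rw [h3]
      rw [inv_mul_cancel_right]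
    let f := Nat.card (K.map (QuotientGroup.mk' L))
    have hf : ∀ k ∈ K.map (QuotientGroup.mk' L), k ^ f = 1 := by
      intro k hk
      have h1 : (⟨k, hk⟩ : K.map (QuotientGroup.mk' L)) ^ f = 1 := pow_card_eq_one'
      exact congrArg Subtype.val h1
    refine ⟨q * f, mul_ne_zero hq0 hcard, ?_⟩
    have hTF' : TF (L ⊔ Subgroup.zpowers t) := by
      intro x hx m hm hx1
      rw [Subgroup.mem_sup_of_normal_left] at hx
      obtain ⟨l, hl, y, hy, rfl⟩ := hx
      obtain ⟨i, rfl⟩ := Subgroup.mem_zpowers_iff.mp hy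
      have h1 : (((l * t ^ i : G)) : G ⧸ K) = ((t : G) : G ⧸ K) ^ i := by
        rw [QuotientGroup.mk_mul, (QuotientGroup.eq_one_iff l).mpr (vp_le_self _ _ hl), one_mul,
          QuotientGroup.mk_zpow]
      have h2 : ((t : G) : G ⧸ K) ^ (i * m) = 1 := by
        rw [zpow_mul, ← h1, zpow_natCast, ← QuotientGroup.mk_pow, hx1, QuotientGroup.mk_one]
      have h3 : i * m = 0 := by
        by_contra h4
        have h5 : (i * m).natAbs ≠ 0 := Int.natAbs_ne_zero.mpr h4
        apply hfin _ h5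
        rcases Int.natAbs_eq (i * m) with h6 | h6
        · rw [h6, zpow_natCast] at h2; exact h2
        · rw [h6, zpow_neg, inv_eq_one, zpow_natCast] at h2; exact h2
      have h7 : i = 0 := by
        rcases mul_eq_zero.mp h3 with h | h
        · exact h
        · exact absurd (by exact_mod_cast h) hm
      subst h7
      rw [zpow_zero, mul_one] at hx1 ⊢
      exact hTF l hl m hm hx1
    refine hTF'.mono (vp_le ?_)
    intro x hx
    obtain ⟨i, hi⟩ := hmemK' x hx
    let k : G := x ^ q * (t ^ (i * q))⁻¹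
    have hk : k ∈ K := by
      rw [← QuotientGroup.eq_one_iff]
      simp only [k]
      rw [QuotientGroup.mk_mul, QuotientGroup.mk_pow, QuotientGroup.mk_inv, QuotientGroup.mk_zpow,
        ← hi, zpow_mul, zpow_natCast, mul_inv_cancel]
    have hxq : x ^ q = k * t ^ (i * q) := by simp [k]
    have h1 : ((x ^ (q * f) : G) : G ⧸ L) = (((t ^ (i * q * f)) : G) : G ⧸ L) := by
      rw [pow_mul, hxq, QuotientGroup.mk_pow, QuotientGroup.mk_mul]
      have hkm : ((k : G) : G ⧸ L) ∈ K.map (QuotientGroup.mk' L) := ⟨k, hk, rfl⟩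
      have hcomm : Commute ((k : G) : G ⧸ L) (((t ^ (i * q)) : G) : G ⧸ L) := by
        rw [QuotientGroup.mk_zpow, mul_comm i, zpow_mul, zpow_natCast]
        exact ((hq _ hkm).zpow_left i).symm
      rw [hcomm.mul_pow, hf _ hkm, one_mul, QuotientGroup.mk_zpow, QuotientGroup.mk_zpow,
        ← zpow_natCast, ← zpow_mul]
    have h2 : x ^ (q * f) * (t ^ (i * q * f))⁻¹ ∈ L := by
      rw [← QuotientGroup.eq_one_iff, QuotientGroup.mk_mul, h1, QuotientGroup.mk_inv,
        mul_inv_cancel]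
    have h3 : x ^ (q * f) = (x ^ (q * f) * (t ^ (i * q * f))⁻¹) * t ^ (i * q * f) := by group
    rw [h3]
    exact mul_mem (Subgroup.mem_sup_left h2)
      (Subgroup.mem_sup_right (Subgroup.zpow_mem_zpowers _ _))

/-- Good exponents exist for finitely generated virtually nilpotent groups. -/
theorem exists_good (G : Type*) [Group G] [hG : Group.FG G] (hvn : Group.IsVirtuallyNilpotent G) :
    ∃ e : ℕ, e ≠ 0 ∧ ∀ e' : ℕ, e' ≠ 0 → e ∣ e' →
      (vp (⊤ : Subgroup G) e').index ≠ 0 ∧ Group.IsNilpotent (vp (⊤ : Subgroup G) e') ∧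
      TF (vp (⊤ : Subgroup G) e') := by
  obtain ⟨N0, hN0, hfi⟩ := hvn
  let N := N0.normalCore
  have hNfi : N.FiniteIndex := inferInstance
  have hNnil : Group.IsNilpotent N := by
    have h1 : Group.IsNilpotent (N.subgroupOf N0) := inferInstance
    exact Group.nilpotent_of_mulEquiv (Subgroup.subgroupOfEquivOfLe (Subgroup.normalCore_le N0))
  have hNfg : Group.FG N := inferInstance
  obtain ⟨e0, he0, hTF⟩ := exists_tf_vp N
  let d := N.index.factorial
  have hd : d ≠ 0 := Nat.factorial_ne_zero _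
  have hpow : ∀ x : G, x ^ d ∈ N := fun x =>
    Subgroup.pow_mem_of_index_ne_zero_of_dvd hNfi.index_ne_zero x
      (fun m h1 h2 => Nat.dvd_factorial h1 h2)
  refine ⟨d * e0, mul_ne_zero hd he0, ?_⟩
  intro e' he' hdvd
  obtain ⟨k, rfl⟩ := hdvd
  have hsub : vp (⊤ : Subgroup G) (d * e0 * k) ≤ (vp (⊤ : Subgroup N) e0).map N.subtype := by
    refine vp_le ?_
    intro x _
    refine ⟨((⟨x ^ d, hpow x⟩ : N) ^ k) ^ e0, pow_mem_vp (Subgroup.mem_top _) e0, ?_⟩
    simp only [Subgroup.subtype_apply, Subgroup.coe_pow]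
    rw [← pow_mul, ← pow_mul]
    congr 1
    ring
  refine ⟨?_, ?_, ?_⟩
  · have h1 : (vp (⊤ : Subgroup N) (d * e0 * k)).map N.subtype ≤ vp (⊤ : Subgroup G) (d * e0 * k) := by
      rw [map_vp]; exact vp_mono le_top _
    have h2 := Subgroup.index_dvd_of_le h1
    intro h3
    rw [h3, Nat.zero_dvd, Subgroup.index_map_subtype] at h2
    exact mul_ne_zero (vp_index_nilpotent N he') hNfi.index_ne_zero h2
  · have h1 : vp (⊤ : Subgroup G) (d * e0 * k) ≤ N := by
      refine hsub.trans ?_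
      rintro _ ⟨y, _, rfl⟩
      exact y.2
    have h2 : Group.IsNilpotent ((vp (⊤ : Subgroup G) (d * e0 * k)).subgroupOf N) := inferInstance
    exact Group.nilpotent_of_mulEquiv (Subgroup.subgroupOfEquivOfLe h1)
  · intro x hx m hm hx1
    obtain ⟨y, hy, rfl⟩ := hsub hx
    have h1 : y ^ m = 1 := Subtype.ext (by simpa using hx1)
    rw [hTF y hy m hm h1]; simp

end Pool.Agent.MP81bbc5
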