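import Pool.Agent.Lib.MP_81bbc5_al.Poly

/-! Zeros of polynomial sequences in torsion-free nilpotent groups. -/

set_option autoImplicit false

namespace Pool.Agent.MP81bbc5

open scoped commutatorElement

theorem zeros_finite_rat (K : ℕ) (c : ℕ → ℚ) (f : ℕ → ℚ)
    (hf : ∀ n, f n = ∑ k ∈ Finset.range K, (n.choose k : ℚ) * c k) (n0 : ℕ) (h0 : f n0 ≠ 0) :
    {n | f n = 0}.Finite := by
  let P : Polynomial ℚ := ∑ k ∈ Finset.range K,
    Polynomial.C (c k / (k.factorial : ℚ)) * descPochhammer ℚ k
  have hP : ∀ n : ℕ, P.eval (n : ℚ) = f n := by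
    intro n
    rw [hf n]
    simp only [P, Polynomial.eval_finsetSum, Polynomial.eval_mul, Polynomial.eval_C]
    refine Finset.sum_congr rfl fun k _ => ?_
    rw [Nat.cast_choose_eq_descPochhammer_div ℚ n k]
    ring
  have hP0 : P ≠ 0 := by
    intro h
    apply h0
    rw [← hP n0, h, Polynomial.eval_zero]
  have hfin := Polynomial.finite_setOfPred_isRoot hP0
  refine Set.Finite.of_finite_image (f := fun n : ℕ => (n : ℚ)) (hfin.subset ?_)
    (fun a _ b _ h => Nat.cast_injective (R := ℚ) h)
  rintro _ ⟨n, hn, rfl⟩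
  change P.eval (n : ℚ) = 0
  rw [hP n]; exact hn

theorem zeros_finite_ab {A : Type*} [AddCommGroup A]
    (htf : ∀ (a : A) (m : ℕ), m ≠ 0 → m • a = 0 → a = 0) (K : ℕ) (f : ℕ → A)
    (hf : ∀ t, (fwdDiff 1)^[K] f t = 0) (n0 : ℕ) (h0 : f n0 ≠ 0) : {n | f n = 0}.Finite := by
  let a : ℕ → A := fun k => (fwdDiff 1)^[k] f 0
  have ha : ∀ k, K ≤ k → a k = 0 := by
    intro k hk
    obtain ⟨j, rfl⟩ := Nat.exists_eq_add_of_le hk
    have h1 : (fwdDiff 1)^[K] f = 0 := funext hf
    have h2 : ∀ j, (fwdDiff 1)^[j] (0 : ℕ → A) = 0 := by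
      intro j
      induction j with
      | zero => rfl
      | succ j ih =>
        rw [Function.iterate_succ_apply, show fwdDiff 1 (0 : ℕ → A) = 0 from ?_, ih]
        funext t; simp [fwdDiff]
    change (fwdDiff 1)^[K + j] f 0 = 0
    rw [add_comm, Function.iterate_add_apply, h1, h2]
    rfl
  have hN : ∀ n, f n = ∑ k ∈ Finset.range K, n.choose k • a k := by
    intro n
    have h := shift_eq_sum_fwdDiff_iter 1 f n 0
    simp only [zero_add, smul_eq_mul, mul_one] at h
    rw [h]
    have e1 : ∑ k ∈ Finset.range (n + 1), n.choose k • (fwdDiff 1)^[k] f 0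
        = ∑ k ∈ Finset.range (n + 1 + K), n.choose k • a k := by
      refine Finset.sum_subset (Finset.range_mono (by omega)) ?_
      intro k _ hk
      rw [Finset.mem_range, not_lt] at hk
      rw [Nat.choose_eq_zero_of_lt (by omega), zero_smul]
    rw [e1]
    symm
    refine Finset.sum_subset (Finset.range_mono (by omega)) ?_
    intro k _ hk
    rw [Finset.mem_range, not_lt] at hk
    rw [ha k hk, smul_zero]
  let M : Submodule ℤ A := Submodule.span ℤ (Set.range (fun k : Fin K => a k))
  have haM : ∀ k, k < K → a k ∈ M := fun k hk => Submodule.subset_span ⟨⟨k, hk⟩, rfl⟩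
  have hfM : ∀ n, f n ∈ M := by
    intro n
    rw [hN n]
    refine Submodule.sum_mem _ fun k hk => ?_
    exact Submodule.smul_of_tower_mem M _ (haM k (Finset.mem_range.mp hk))
  have : Module.Finite ℤ M := Module.Finite.span_of_finite ℤ (Set.finite_range _)
  have : Module.IsTorsionFree ℤ M := by
    refine ⟨fun r hr x y hxy => ?_⟩
    have hr0 : r ≠ 0 := by
      rintro rfl
      have := hr.1 (show (0 : ℤ) * 0 = 0 * 1 by simp)
      exact absurd this (by norm_num)
    have h1 : r • (x - y) = 0 := by
      have hxy' : r • x = r • y := hxy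
      rw [smul_sub, hxy', sub_self]
    have h2 : r • ((x : A) - y) = 0 := by
      have := congrArg (Subtype.val) h1
      simpa using this
    have h3 : r.natAbs • ((x : A) - y) = 0 := by
      rcases Int.natAbs_eq r with h | h
      · rw [h] at h2; simpa using h2
      · rw [h] at h2; simpa using h2
    have h4 := htf _ _ (by simpa using hr0) h3
    exact Subtype.ext (sub_eq_zero.mp h4)
  have hx : (⟨f n0, hfM n0⟩ : M) ≠ 0 := by
    intro h; exact h0 (congrArg Subtype.val h)
  obtain ⟨φ, hφ⟩ := Module.Projective.exists_dual_ne_zero ℤ hx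
  let g : ℕ → ℚ := fun n => ((φ ⟨f n, hfM n⟩ : ℤ) : ℚ)
  let c : ℕ → ℚ := fun k => if h : k < K then ((φ ⟨a k, haM k h⟩ : ℤ) : ℚ) else 0
  have hg : ∀ n, g n = ∑ k ∈ Finset.range K, (n.choose k : ℚ) * c k := by
    intro n
    have e : (⟨f n, hfM n⟩ : M) = ∑ k : Fin K, (n.choose k : ℤ) • ⟨a k, haM k k.2⟩ := by
      apply Subtype.ext
      rw [AddSubmonoidClass.coe_finsetSum]
      simp only [SetLike.mk_smul_mk]
      rw [hN n, Finset.sum_range]
      refine Finset.sum_congr rfl fun k _ => ?_
      simp
    simp only [g]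
    rw [e, map_sum, Finset.sum_range]
    push_cast
    refine Finset.sum_congr rfl fun k _ => ?_
    simp only [map_smul, c, dif_pos k.2]
    simp
  have hfin := zeros_finite_rat K c g hg n0 (by simpa [g] using hφ)
  refine hfin.subset ?_
  intro n hn
  change f n = 0 at hn
  change g n = 0
  simp only [g]
  have : (⟨f n, hfM n⟩ : M) = 0 := Subtype.ext hn
  rw [this, map_zero]
  simp

/-- Pushing a polynomial sequence forward by a homomorphism. -/
theorem map_polySeq {N M : Type*} [Group N] [Group M] (f : N →* M) {p : ℕ → N}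
    (hp : p ∈ polySeq N) : (fun t => f (p t)) ∈ polySeq M := by
  induction hp using Subgroup.closure_induction with
  | mem x hx =>
    rcases hx with ⟨a, rfl⟩ | ⟨b, rfl⟩
    · exact const_mem (f a)
    · have : (fun t : ℕ => f (b ^ t)) = fun t => (f b) ^ t := by funext t; rw [map_pow]
      rw [this]; exact pow_mem_polySeq (f b)
  | one =>
    have : (fun t : ℕ => f ((1 : ℕ → N) t)) = 1 := by funext t; simp
    rw [this]; exact one_mem _
  | mul x y _ _ hx hy =>
    have : (fun t : ℕ => f ((x * y) t)) = (fun t => f (x t)) * (fun t => f (y t)) := by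
      funext t; simp
    rw [this]; exact mul_mem hx hy
  | inv x _ hx =>
    have : (fun t : ℕ => f (x⁻¹ t)) = (fun t => f (x t))⁻¹ := by funext t; simp
    rw [this]; exact inv_mem hx

/-- A polynomial sequence in a nilpotent group with torsion-free center has finitely many zeros
unless it is trivial. -/
theorem finite_zeros (N : Type*) [Group N] [Group.IsNilpotent N]
    (htf : ∀ z ∈ Subgroup.center N, ∀ m : ℕ, m ≠ 0 → z ^ m = 1 → z = 1)
    (p : ℕ → N) (hp : p ∈ polySeq N) (t0 : ℕ) (h0 : p t0 ≠ 1) : {t | p t = 1}.Finite := by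
  revert htf p hp t0 h0
  refine Group.nilpotent_center_quotient_ind (P := fun N _ _ =>
    (∀ z ∈ Subgroup.center N, ∀ m : ℕ, m ≠ 0 → z ^ m = 1 → z = 1) →
    ∀ (p : ℕ → N), p ∈ polySeq N → ∀ (t0 : ℕ), p t0 ≠ 1 → {t | p t = 1}.Finite) N ?_ ?_
  · intro G _ _ _ p _ t0 h0
    exact absurd (Subsingleton.elim _ _) h0
  · intro G _ _ ih htf p hp t0 h0
    have htf' : ∀ z ∈ Subgroup.center (G ⧸ Subgroup.center G), ∀ m : ℕ, m ≠ 0 → z ^ m = 1 →
        z = 1 := by
      intro z hz m hm hzm
      obtain ⟨x, rfl⟩ := QuotientGroup.mk_surjective z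
      rw [← QuotientGroup.mk_pow, QuotientGroup.eq_one_iff] at hzm
      rw [QuotientGroup.eq_one_iff, Subgroup.mem_center_iff]
      intro y
      have hc : ⁅x, y⁆ ∈ Subgroup.center G := by
        rw [← QuotientGroup.eq_one_iff, commutatorElement_def]
        have h1 := Subgroup.mem_center_iff.mp hz (y : G ⧸ Subgroup.center G)
        rw [QuotientGroup.mk_mul, QuotientGroup.mk_mul, QuotientGroup.mk_mul,
          QuotientGroup.mk_inv, QuotientGroup.mk_inv, ← h1]
        group
      have hpow : ∀ k : ℕ, ⁅x ^ k, y⁆ = ⁅x, y⁆ ^ k := by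
        intro k
        induction k with
        | zero => simp
        | succ k ihk =>
          have e : ⁅x ^ (k + 1), y⁆ = x * ⁅x ^ k, y⁆ * x⁻¹ * ⁅x, y⁆ := by
            simp only [commutatorElement_def, pow_succ']; group
          rw [e, ihk]
          have hc2 : ⁅x, y⁆ ^ k ∈ Subgroup.center G := pow_mem hc k
          rw [Subgroup.mem_center_iff.mp hc2 x, mul_inv_cancel_right, pow_succ]
      have h2 : ⁅x, y⁆ ^ m = 1 := by
        rw [← hpow, commutatorElement_eq_one_iff_mul_comm]
        exact (Subgroup.mem_center_iff.mp hzm y).symm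
      have h3 := htf _ hc m hm h2
      exact (commutatorElement_eq_one_iff_mul_comm.mp h3).symm
    by_cases hq : ∃ t, ((p t : G) : G ⧸ Subgroup.center G) ≠ 1
    · obtain ⟨t1, ht1⟩ := hq
      have hfin := ih htf' (fun t => QuotientGroup.mk' (Subgroup.center G) (p t))
        (map_polySeq (QuotientGroup.mk' (Subgroup.center G)) hp) t1 ht1
      refine hfin.subset ?_
      intro t ht
      change p t = 1 at ht
      change QuotientGroup.mk' (Subgroup.center G) (p t) = 1
      rw [ht, map_one]
    · push Not at hq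
      have hZ : ∀ t, p t ∈ Subgroup.center G := fun t => (QuotientGroup.eq_one_iff _).mp (hq t)
      obtain ⟨K, hK⟩ := exists_iter_eq_one (N := G)
      letI : CommGroup (Subgroup.center G) :=
        { (inferInstance : Group (Subgroup.center G)) with
          mul_comm := fun a b => Subtype.ext (Subgroup.mem_center_iff.mp b.2 a) }
      let f : ℕ → Additive (Subgroup.center G) := fun t => Additive.ofMul ⟨p t, hZ t⟩
      have hf : ∀ (j : ℕ) (t : ℕ),
          (((fwdDiff 1)^[j] f t).toMul : G) = (dl^[j] p) t := by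
        intro j
        induction j with
        | zero => intro t; rfl
        | succ j ihj =>
          intro t
          rw [Function.iterate_succ_apply', Function.iterate_succ_apply']
          change (((fwdDiff 1)^[j] f (t + 1) - (fwdDiff 1)^[j] f t).toMul : G) = _
          rw [toMul_sub, Subgroup.coe_div, ihj, ihj, div_eq_mul_inv]
          rfl
      have h1 := zeros_finite_ab (A := Additive (Subgroup.center G)) ?_ K f ?_ t0 ?_
      · refine h1.subset ?_
        intro t ht
        change p t = 1 at ht
        change f t = 0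
        have : (⟨p t, hZ t⟩ : Subgroup.center G) = 1 := Subtype.ext ht
        simp only [f, this]
        rfl
      · intro a m hm ha
        have h2 : ((a.toMul : Subgroup.center G) : G) ^ m = 1 := by
          have h3 : (a.toMul) ^ m = 1 := by
            rw [← toMul_nsmul, ha]; rfl
          rw [← Subgroup.coe_pow, h3, Subgroup.coe_one]
        have h4 := htf _ (a.toMul).2 m hm h2
        have h5 : a.toMul = 1 := Subtype.ext h4
        exact h5
      · intro t
        have h6 : (((fwdDiff 1)^[K] f t).toMul : G) = 1 := by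
          rw [hf, hK p hp]; rfl
        have h7 : ((fwdDiff 1)^[K] f t).toMul = 1 := Subtype.ext h6
        exact h7
      · intro h
        apply h0
        have h8 : (⟨p t0, hZ t0⟩ : Subgroup.center G) = 1 := h
        exact congrArg Subtype.val h8

end Pool.Agent.MP81bbc5
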